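import Pool.Agent.Helper87.HD.Defs

/-!
Statements of the modules of the analytic core for all `d`. Module `X` proves `ST_X` from the statements named in its
comment (text: /team-store/lecc_helper87_allD.md).
-/

set_option autoImplicit false

open Finset

namespace HD

/-- POL: the polynomial inequality of Lemma L. `d = n + 1`, `q = p ^ 2`. -/
def ST_POL : Prop := ∀ (n : ℕ) (q : ℝ), 1 ≤ n → 0 ≤ q → q < 1 →
  let Z2 : ℝ := q * (3 * (n + 1) - 2 - (n - 1) * q) ^ 2 / ((n + 1) ^ 2 * (1 - q) ^ 2)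
  ((1 + q) / (1 - q)) ^ 2 ≤ (Z2 + 1) * ((Z2 + (n + 1)) * (n + q) / ((n + 1) * (n + Z2))) ^ (n - 1) ∧
  (2 ≤ n → 0 < q →
    ((1 + q) / (1 - q)) ^ 2 < (Z2 + 1) * ((Z2 + (n + 1)) * (n + q) / ((n + 1) * (n + Z2))) ^ (n - 1))

/-- LEM (from POL): Lemma L, `d = n + 1`; `w = z e + v`. -/
def ST_LEM : Prop := ∀ (V : Type) [NormedAddCommGroup V] [InnerProductSpace ℂ V] [FiniteDimensional ℂ V]
  (n : ℕ) (Φ : MultilinearMap ℂ (fun _ : Fin (n + 1) => V) ℂ), 1 ≤ n → SymF Φ → UnitF Φ →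
  ∀ (e v : V) (z : ℂ), ‖e‖ = 1 → inner ℂ e v = 0 →
  ‖Φ.curryLeft e (fun _ => z • e + v)‖ ^ 2 ≤
    (‖z‖ ^ 2 + ‖v‖ ^ 2 / n) * (‖z‖ ^ 2 + (n + 1) * ‖v‖ ^ 2 / n) ^ (n - 1) ∧
  (2 ≤ n → z ≠ 0 → v ≠ 0 → ‖Φ.curryLeft e (fun _ => z • e + v)‖ ^ 2 <
    (‖z‖ ^ 2 + ‖v‖ ^ 2 / n) * (‖z‖ ^ 2 + (n + 1) * ‖v‖ ^ 2 / n) ^ (n - 1))

/-- DET: the `Φ`-determinant under row and column mixing, transposition, and expansion along a row with one entry. -/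
def ST_DET : Prop := ∀ (V : Type) [NormedAddCommGroup V] [InnerProductSpace ℂ V] [FiniteDimensional ℂ V]
  (n : ℕ) (Φ : MultilinearMap ℂ (fun _ : Fin n => V) ℂ), SymF Φ →
  (∀ (A B : Matrix (Fin n) (Fin n) ℂ) (X : Fin n → Fin n → V), fdet Φ (mix A X B) = A.det * B.det * fdet Φ X) ∧
  (∀ X : Fin n → Fin n → V, fdet Φ (fun i j => X j i) = fdet Φ X)

/-- EXP: expansion along a first row with a single entry. -/
def ST_EXP : Prop := ∀ (V : Type) [NormedAddCommGroup V] [InnerProductSpace ℂ V] [FiniteDimensional ℂ V]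
  (n : ℕ) (Φ : MultilinearMap ℂ (fun _ : Fin (n + 1) => V) ℂ) (X : Fin (n + 1) → Fin (n + 1) → V),
  (∀ j : Fin n, X 0 j.succ = 0) → fdet Φ X = fdet (Φ.curryLeft (X 0 0)) (minor X)

/-- UNT: unitary mixing keeps the norm; a unit vector is the first row of a unitary matrix. -/
def ST_UNT : Prop := (∀ (V : Type) [NormedAddCommGroup V] [InnerProductSpace ℂ V] [FiniteDimensional ℂ V]
  (n : ℕ) (A B : Matrix (Fin n) (Fin n) ℂ) (X : Fin n → Fin n → V), A ∈ Matrix.unitaryGroup (Fin n) ℂ →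
  B ∈ Matrix.unitaryGroup (Fin n) ℂ → nsq (mix A X B) = nsq X) ∧
  (∀ (n : ℕ) (a : Fin (n + 1) → ℂ), ∑ i, ‖a i‖ ^ 2 = 1 → ∃ A ∈ Matrix.unitaryGroup (Fin (n + 1)) ℂ, ∀ i, A 0 i = a i)

/-- EXM: a maximiser exists. -/
def ST_EXM : Prop := ∀ (V : Type) [NormedAddCommGroup V] [InnerProductSpace ℂ V] [FiniteDimensional ℂ V]
  (n : ℕ) (Φ : MultilinearMap ℂ (fun _ : Fin n => V) ℂ), 1 ≤ n → (∃ X, fdet Φ X ≠ 0) → ∃ X, IsMax Φ X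

/-- ORT (from DET): rows and columns of a maximiser are orthonormal, and the first order condition. -/
def ST_ORT : Prop := ∀ (V : Type) [NormedAddCommGroup V] [InnerProductSpace ℂ V] [FiniteDimensional ℂ V]
  (n : ℕ) (Φ : MultilinearMap ℂ (fun _ : Fin n => V) ℂ) (X : Fin n → Fin n → V), SymF Φ → IsMax Φ X →
  (∀ i k, ∑ j, inner ℂ (X i j) (X k j) = if i = k then 1 else 0) ∧
  (∀ j l, ∑ i, inner ℂ (X i j) (X i l) = if j = l then 1 else 0) ∧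
  ∀ (i : Fin n) (R : Fin n → V), fdet Φ (Function.update X i R) = fdet Φ X * ∑ j, inner ℂ (X i j) (R j)

/-- PIV (from DET, UNT, ORT): the pivot. After unitary mixing the first entry is the largest one, it is orthogonal to the
rest of its row and column, and the second order condition holds. -/
def ST_PIV : Prop := ∀ (V : Type) [NormedAddCommGroup V] [InnerProductSpace ℂ V] [FiniteDimensional ℂ V]
  (n : ℕ) (Φ : MultilinearMap ℂ (fun _ : Fin (n + 1) => V) ℂ) (X : Fin (n + 1) → Fin (n + 1) → V), SymF Φ →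
  IsMax Φ X → ∃ A ∈ Matrix.unitaryGroup (Fin (n + 1)) ℂ, ∃ B ∈ Matrix.unitaryGroup (Fin (n + 1)) ℂ,
  IsMax Φ (mix A X B) ∧
  (∀ a b : Fin (n + 1) → ℂ, ∑ i, ‖a i‖ ^ 2 = 1 → ∑ i, ‖b i‖ ^ 2 = 1 →
    ‖∑ i, ∑ j, (a i * b j) • mix A X B i j‖ ≤ ‖mix A X B 0 0‖) ∧
  (∀ i : Fin n, inner ℂ (mix A X B 0 0) (mix A X B i.succ 0) = 0) ∧
  (∀ j : Fin n, inner ℂ (mix A X B 0 0) (mix A X B 0 j.succ) = 0) ∧
  (∀ j : Fin n, ∑ i : Fin n, ‖inner ℂ (mix A X B 0 0) (mix A X B i.succ j.succ)‖ ^ 2 +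
    ‖mix A X B 0 0‖ ^ 2 * ‖mix A X B 0 j.succ‖ ^ 2 ≤ ‖mix A X B 0 0‖ ^ 4)

/-- AD (from LEM, DET, EXP, UNT, EXM, ORT, PIV): Theorem A for every `d = n`. -/
def ST_AD : Prop := ∀ (V : Type) [NormedAddCommGroup V] [InnerProductSpace ℂ V] [FiniteDimensional ℂ V]
  (n : ℕ) (Φ : MultilinearMap ℂ (fun _ : Fin n => V) ℂ), SymF Φ → UnitF Φ → ∀ X : Fin n → Fin n → V,
  ‖fdet Φ X‖ ^ 2 * (n : ℝ) ^ n ≤ nsq X ^ n

/-- EQ (from all): the case of equality, `d = n ≥ 3`. -/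
def ST_EQ : Prop := ∀ (V : Type) [NormedAddCommGroup V] [InnerProductSpace ℂ V] [FiniteDimensional ℂ V]
  (n : ℕ) (Φ : MultilinearMap ℂ (fun _ : Fin n => V) ℂ), 3 ≤ n → SymF Φ → UnitF Φ → ∀ X : Fin n → Fin n → V,
  nsq X = n → ‖fdet Φ X‖ = 1 →
  (∃ U ∈ Matrix.unitaryGroup (Fin n) ℂ, ∃ e : V, ‖e‖ = 1 ∧ ‖Φ (fun _ => e)‖ = 1 ∧ ∀ i j, X i j = U i j • e) ∨
  (∀ i j k l, inner ℂ (X i j) (X k l) = if i = k ∧ j = l then 1 / (n : ℂ) else 0)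

/-- EQ2 (from DET, UNT): in the second case the map `lin X` sends unitary matrices to maximisers. -/
def ST_EQ2 : Prop := ∀ (V : Type) [NormedAddCommGroup V] [InnerProductSpace ℂ V] [FiniteDimensional ℂ V]
  (n : ℕ) (Φ : MultilinearMap ℂ (fun _ : Fin n => V) ℂ), 1 ≤ n → SymF Φ → UnitF Φ → ∀ X : Fin n → Fin n → V,
  ‖fdet Φ X‖ = 1 → (∀ i j k l, inner ℂ (X i j) (X k l) = if i = k ∧ j = l then 1 / (n : ℂ) else 0) →
  ∀ N ∈ Matrix.unitaryGroup (Fin n) ℂ, ‖lin X N‖ = 1 ∧ ‖Φ (fun _ => lin X N)‖ = 1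

/-- MAXP (from AD): the maximum of `P_K` on the unit sphere. -/
def ST_MAXP : Prop := ∀ (d K : ℕ) (x : Ix d (2 * K) → ℂ), 1 ≤ d →
  ‖PP d (2 * K) x‖ ^ 2 ≤ (qq d ^ K) ^ 2 * (∑ a, ‖x a‖ ^ 2) ^ d

/-- UNIQ (from AD, EQ, EQ2): the maximisers are the products over perfect matchings. -/
def ST_UNIQ : Prop := ∀ (d K : ℕ) (x : Ix d (2 * K) → ℂ), 3 ≤ d → 1 ≤ K → ∑ a, ‖x a‖ ^ 2 = 1 →
  ‖PP d (2 * K) x‖ = qq d ^ K → ∃ (e : Fin K × Fin 2 ≃ Fin (2 * K)) (U : Fin K → Matrix (Fin d) (Fin d) ℂ),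
  (∀ k, U k ∈ Matrix.unitaryGroup (Fin d) ℂ) ∧ IsProd e U x

/-- WIG: a linear map of matrices that sends unitary matrices to unitary matrices. -/
def ST_WIG : Prop := ∀ (d : ℕ) (φ : Matrix (Fin d) (Fin d) ℂ →ₗ[ℂ] Matrix (Fin d) (Fin d) ℂ),
  (∀ N ∈ Matrix.unitaryGroup (Fin d) ℂ, φ N ∈ Matrix.unitaryGroup (Fin d) ℂ) →
  ∃ A ∈ Matrix.unitaryGroup (Fin d) ℂ, ∃ B ∈ Matrix.unitaryGroup (Fin d) ℂ,
    (∀ N, φ N = A * N * B) ∨ (∀ N, φ N = A * N.transpose * B)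

/-- REAL (from UNIQ): the real maximisers are products of orthogonal matrices. -/
def ST_REAL : Prop := ∀ (d K : ℕ) (x : Ix d (2 * K) → ℝ), 3 ≤ d → 1 ≤ K → ∑ a, x a ^ 2 = 1 →
  ‖PP d (2 * K) (fun a => (x a : ℂ))‖ = qq d ^ K →
  ∃ (e : Fin K × Fin 2 ≃ Fin (2 * K)) (O : Fin K → Matrix (Fin d) (Fin d) ℝ),
  (∀ k, O k ∈ Matrix.orthogonalGroup (Fin d) ℝ) ∧
  ∀ a, x a = (∏ k, O k (a (e (k, 0))) (a (e (k, 1)))) / Real.sqrt d ^ K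

end HD
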