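import Pool.Agent.Helper87.HD.ORT

set_option autoImplicit false

open Finset

namespace HD

/-- AM-GM with weights `1` and `n - 1` -/
theorem amgm (n : ℕ) (hn : 1 ≤ n) (a b : ℝ) (ha : 0 ≤ a) (hb : 0 ≤ b) :
    a * b ^ (n - 1) ≤ ((a + (n - 1) * b) / n) ^ n := by
  have hn0 : (0 : ℝ) < n := by exact_mod_cast hn
  rcases hb.lt_or_eq with hb0 | hb0
  · set m : ℝ := (a + (n - 1) * b) / n with hm
    have h1 : (-2 : ℝ) ≤ m / b - 1 := by
      have : 0 ≤ m / b := by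
        have : 0 ≤ m := by
          have : (0 : ℝ) ≤ n - 1 := by
            have : (1 : ℝ) ≤ n := by exact_mod_cast hn
            linarith
          positivity
        positivity
      linarith
    have h2 := one_add_mul_le_pow h1 n
    have h3 : 1 + (n : ℝ) * (m / b - 1) = a / b := by
      rw [hm]; field_simp; ring
    have h4 : 1 + (m / b - 1) = m / b := by ring
    rw [h3, h4, div_pow, div_le_div_iff₀ hb0 (by positivity)] at h2
    have h5 : b ^ n = b ^ (n - 1) * b := by rw [← pow_succ]; congr 1; omega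
    rw [h5] at h2
    have h6 : (a * b ^ (n - 1)) * b ≤ m ^ n * b := by nlinarith
    exact le_of_mul_le_mul_right h6 hb0
  · rw [← hb0]
    by_cases h : n = 1
    · subst h; simp
    · rw [zero_pow (by omega), mul_zero, mul_zero, add_zero]
      positivity

section

variable {V : Type} [NormedAddCommGroup V] [InnerProductSpace ℂ V]

/-- the norm of `z e + v` -/
theorem nrm_dec (e v : V) (z : ℂ) (he : ‖e‖ = 1) (hv : inner ℂ e v = 0) :
    ‖z • e + v‖ ^ 2 = ‖z‖ ^ 2 + ‖v‖ ^ 2 := by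
  have h := norm_add_sq (𝕜 := ℂ) (z • e) v
  rw [inner_smul_left, hv, mul_zero, norm_smul, he, mul_one] at h
  simpa using h

theorem ort_dec (e w : V) (he : ‖e‖ = 1) : inner ℂ e (w - (inner ℂ e w : ℂ) • e) = 0 := by
  rw [inner_sub_right, inner_smul_right, inner_self_eq_norm_sq_to_K, he]; simp

theorem nrm_dec' (e w : V) (he : ‖e‖ = 1) :
    ‖w‖ ^ 2 = ‖(inner ℂ e w : ℂ)‖ ^ 2 + ‖w - (inner ℂ e w : ℂ) • e‖ ^ 2 := by
  rw [← nrm_dec e _ _ he (ort_dec e w he)]; congr 2; abel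

/-- the linear map that multiplies `e` by `a` and the orthogonal complement of `e` by `b` -/
noncomputable def scl (e : V) (a b : ℝ) : V →ₗ[ℂ] V :=
  ((a : ℂ) - (b : ℂ)) • ((innerSL ℂ e).toLinearMap.smulRight e) + (b : ℂ) • LinearMap.id

theorem scl_apply (e : V) (a b : ℝ) (w : V) : scl e a b w =
    ((a : ℂ) * inner ℂ e w) • e + (b : ℂ) • (w - (inner ℂ e w : ℂ) • e) := by
  simp only [scl, LinearMap.add_apply, LinearMap.smul_apply, LinearMap.smulRight_apply, LinearMap.id_apply,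
    ContinuousLinearMap.coe_coe, innerSL_apply_apply]
  rw [smul_sub, smul_smul, smul_smul, sub_mul, sub_smul]
  abel

theorem nrm_scl (e : V) (a b : ℝ) (w : V) (he : ‖e‖ = 1) : ‖scl e a b w‖ ^ 2 =
    a ^ 2 * ‖(inner ℂ e w : ℂ)‖ ^ 2 + b ^ 2 * ‖w - (inner ℂ e w : ℂ) • e‖ ^ 2 := by
  rw [scl_apply, nrm_dec e _ _ he (by rw [inner_smul_right, ort_dec e w he, mul_zero]), norm_mul, norm_smul,
    Complex.norm_real, Complex.norm_real, mul_pow, mul_pow]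
  simp

theorem scl_scl (e : V) (a b : ℝ) (w : V) (he : ‖e‖ = 1) (ha : a ≠ 0) (hb : b ≠ 0) :
    scl e a⁻¹ b⁻¹ (scl e a b w) = w := by
  have ha' : (a : ℂ) ≠ 0 := by exact_mod_cast ha
  have hb' : (b : ℂ) ≠ 0 := by exact_mod_cast hb
  have h1 : (inner ℂ e (scl e a b w) : ℂ) = a * inner ℂ e w := by
    rw [scl_apply, inner_add_right, inner_smul_right, inner_smul_right, ort_dec e w he,
      inner_self_eq_norm_sq_to_K, he]
    simp
  rw [scl_apply e a⁻¹ b⁻¹, h1]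
  have h2 : scl e a b w - ((a : ℂ) * inner ℂ e w) • e = (b : ℂ) • (w - (inner ℂ e w : ℂ) • e) := by
    rw [scl_apply]; abel
  rw [h2, smul_smul, Complex.ofReal_inv, Complex.ofReal_inv, inv_mul_cancel₀ hb', one_smul, ← mul_assoc,
    inv_mul_cancel₀ ha', one_mul]
  abel

theorem fdet_comp {n : ℕ} (Φ : MultilinearMap ℂ (fun _ : Fin n => V) ℂ) (L : V →ₗ[ℂ] V) (c : ℂ)
    (X : Fin n → Fin n → V) : fdet (c • Φ.compLinearMap (fun _ => L)) X = c * fdet Φ (fun i j => L (X i j)) := by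
  unfold fdet
  rw [Finset.mul_sum]
  refine Finset.sum_congr rfl fun σ _ => ?_
  simp only [_root_.smul_apply, MultilinearMap.compLinearMap_apply, smul_eq_mul]
  ring

theorem SymF.curry {n : ℕ} {Φ : MultilinearMap ℂ (fun _ : Fin (n + 1) => V) ℂ} (hΦ : SymF Φ) (e : V) :
    SymF (Φ.curryLeft e) := by
  intro σ x
  rw [MultilinearMap.curryLeft_apply, MultilinearMap.curryLeft_apply]
  have h := hΦ (Equiv.Perm.decomposeFin.symm (0, σ)) (Fin.cons e x)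
  rw [← h]
  congr 1
  funext i
  refine Fin.cases ?_ (fun j => ?_) i
  · simp
  · simp [Equiv.Perm.decomposeFin_symm_apply_succ]

theorem SymF.comp {n : ℕ} {Φ : MultilinearMap ℂ (fun _ : Fin n => V) ℂ} (hΦ : SymF Φ) (L : V →ₗ[ℂ] V) (c : ℂ) :
    SymF (c • Φ.compLinearMap (fun _ => L)) := by
  intro σ x
  simp only [_root_.smul_apply, MultilinearMap.compLinearMap_apply]
  rw [hΦ σ (fun i => L (x i))]

/-- the facts about a pivoted maximiser that are used twice (in AD and in EQ). `d = n + 1`, `e` = direction of the pivot,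
`t = μ ^ 2`, `S` = sum of the squares of the `e`-components of the minor. -/
theorem pivot_facts (hE : ST_EXP) (hO : ST_ORT) (hP : ST_PIV) (hD : ST_DET) [FiniteDimensional ℂ V]
    {n : ℕ} {Φ : MultilinearMap ℂ (fun _ : Fin (n + 1) => V) ℂ} (hΦ : SymF Φ) {X₀ : Fin (n + 1) → Fin (n + 1) → V}
    (hX₀ : IsMax Φ X₀) :
    ∃ A ∈ Matrix.unitaryGroup (Fin (n + 1)) ℂ, ∃ B ∈ Matrix.unitaryGroup (Fin (n + 1)) ℂ, ∃ (e : V) (μ : ℝ),
      IsMax Φ (mix A X₀ B) ∧ ‖fdet Φ (mix A X₀ B)‖ = ‖fdet Φ X₀‖ ∧ ‖e‖ = 1 ∧ 0 < μ ∧ mix A X₀ B 0 0 = (μ : ℂ) • e ∧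
      1 ≤ (n + 1) * μ ^ 2 ∧ μ ^ 2 ≤ 1 ∧
      (∀ a b : Fin (n + 1) → ℂ, ∑ i, ‖a i‖ ^ 2 = 1 → ∑ i, ‖b i‖ ^ 2 = 1 →
        ‖∑ i, ∑ j, (a i * b j) • mix A X₀ B i j‖ ≤ μ) ∧
      ∑ j : Fin n, ‖mix A X₀ B 0 j.succ‖ ^ 2 = 1 - μ ^ 2 ∧ ∑ i : Fin n, ‖mix A X₀ B i.succ 0‖ ^ 2 = 1 - μ ^ 2 ∧
      nsq (minor (mix A X₀ B)) = n - 1 + μ ^ 2 ∧
      ∑ i, ∑ j, ‖(inner ℂ e (minor (mix A X₀ B) i j) : ℂ)‖ ^ 2 ≤ (n + 1) * μ ^ 2 - 1 ∧
      ‖fdet Φ X₀‖ * μ = ‖fdet (Φ.curryLeft e) (minor (mix A X₀ B))‖ := by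
  obtain ⟨A, hA, B, hB, hX, hmax, hc, hr, hs⟩ := hP V n Φ X₀ hΦ hX₀
  set X := mix A X₀ B with hXdef
  obtain ⟨ho1, ho2, ho3⟩ := hO V (n + 1) Φ X hΦ hX
  set μ : ℝ := ‖X 0 0‖ with hμ
  have hrow : ∀ i, ∑ j, ‖X i j‖ ^ 2 = 1 := fun i => hX.row_one hD hΦ i
  have hcol : ∀ j, ∑ i, ‖X i j‖ ^ 2 = 1 := fun j => (hX.transpose hD hΦ).row_one hD hΦ j
  have hent : ∀ i j, ‖X i j‖ ≤ μ := by
    intro i j
    have h1 := hmax (Pi.single i 1) (Pi.single j 1)
      (by rw [Finset.sum_eq_single i]; simp; intro k _ hk; simp [hk]; simp)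
      (by rw [Finset.sum_eq_single j]; simp; intro k _ hk; simp [hk]; simp)
    have h2 : ∑ k, ∑ l, ((Pi.single i 1 : Fin (n + 1) → ℂ) k * (Pi.single j 1 : Fin (n + 1) → ℂ) l) • X k l = X i j := by
      rw [Finset.sum_eq_single i, Finset.sum_eq_single j]
      · simp
      · intro l _ hl; simp [hl]
      · simp
      · intro k _ hk
        refine Finset.sum_eq_zero fun l _ => ?_
        simp [hk]
      · simp
    rwa [h2] at h1
  have hμ1 : 1 ≤ (n + 1 : ℝ) * μ ^ 2 := by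
    calc (1 : ℝ) = ∑ j, ‖X 0 j‖ ^ 2 := (hrow 0).symm
      _ ≤ ∑ j : Fin (n + 1), μ ^ 2 :=
          Finset.sum_le_sum fun j _ => by
            have := hent 0 j
            gcongr
      _ = (n + 1) * μ ^ 2 := by simp
  have hμ0 : 0 < μ := by
    rcases (norm_nonneg (X 0 0)).lt_or_eq with h | h
    · exact h
    · rw [hμ, ← h] at hμ1; norm_num at hμ1
  have hrow0 : ∑ j : Fin n, ‖X 0 j.succ‖ ^ 2 = 1 - μ ^ 2 := by
    have := hrow 0
    rw [Fin.sum_univ_succ] at this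
    linarith
  have hcol0 : ∑ i : Fin n, ‖X i.succ 0‖ ^ 2 = 1 - μ ^ 2 := by
    have := hcol 0
    rw [Fin.sum_univ_succ] at this
    linarith
  have hμ2 : μ ^ 2 ≤ 1 := by
    have : 0 ≤ ∑ j : Fin n, ‖X 0 j.succ‖ ^ 2 := Finset.sum_nonneg fun _ _ => by positivity
    linarith
  have hμc : (μ : ℂ) ≠ 0 := by exact_mod_cast hμ0.ne'
  set e : V := (μ : ℂ)⁻¹ • X 0 0 with he
  have he1 : ‖e‖ = 1 := by
    rw [he, norm_smul, norm_inv, Complex.norm_real, Real.norm_eq_abs, abs_of_pos hμ0, ← hμ, inv_mul_cancel₀ hμ0.ne']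
  have hX00 : X 0 0 = (μ : ℂ) • e := by rw [he, smul_smul, mul_inv_cancel₀ hμc, one_smul]
  have hdet : ‖fdet Φ X‖ = ‖fdet Φ X₀‖ := by
    have hAn : ‖A.det‖ = 1 := by
      have := (Matrix.det_of_mem_unitary hA)
      exact CStarRing.norm_of_mem_unitary this
    have hBn : ‖B.det‖ = 1 := by
      have := (Matrix.det_of_mem_unitary hB)
      exact CStarRing.norm_of_mem_unitary this
    rw [hXdef, (hD V (n + 1) Φ hΦ).1, norm_mul, norm_mul, hAn, hBn, one_mul, one_mul]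
  have hnsq : nsq (minor X) = n - 1 + μ ^ 2 := by
    have h1 := hX.1
    unfold nsq at h1
    rw [Fin.sum_univ_succ, hrow 0] at h1
    have h2 : ∑ i : Fin n, ∑ j, ‖X i.succ j‖ ^ 2 = ∑ i : Fin n, ‖X i.succ 0‖ ^ 2 + nsq (minor X) := by
      unfold nsq minor
      rw [← Finset.sum_add_distrib]
      refine Finset.sum_congr rfl fun i _ => ?_
      rw [Fin.sum_univ_succ]
    rw [h2, hcol0] at h1
    push_cast at h1
    linarith
  refine ⟨A, hA, B, hB, e, μ, hX, hdet, he1, hμ0, hX00, hμ1, hμ2, hmax, hrow0, hcol0, hnsq, ?_, ?_⟩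
  · -- the bound for S
    have h1 : ∀ j : Fin n, ∑ i : Fin n, ‖(inner ℂ e (X i.succ j.succ) : ℂ)‖ ^ 2 + ‖X 0 j.succ‖ ^ 2 ≤ μ ^ 2 := by
      intro j
      have h2 := hs j
      have h3 : ∀ i : Fin n, ‖(inner ℂ (X 0 0) (X i.succ j.succ) : ℂ)‖ ^ 2 =
          μ ^ 2 * ‖(inner ℂ e (X i.succ j.succ) : ℂ)‖ ^ 2 := by
        intro i
        rw [hX00, inner_smul_left, norm_mul, mul_pow, RCLike.norm_conj, Complex.norm_real, Real.norm_eq_abs, sq_abs]
      rw [Finset.sum_congr rfl fun i _ => h3 i, ← Finset.mul_sum] at h2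
      have h4 : μ ^ 2 * (∑ i : Fin n, ‖(inner ℂ e (X i.succ j.succ) : ℂ)‖ ^ 2 + ‖X 0 j.succ‖ ^ 2) ≤ μ ^ 2 * μ ^ 2 := by
        nlinarith
      exact le_of_mul_le_mul_left h4 (by positivity)
    have h2 := Finset.sum_le_sum (fun j (_ : j ∈ (univ : Finset (Fin n))) => h1 j)
    rw [Finset.sum_add_distrib, hrow0, Finset.sum_const, Finset.card_univ, Fintype.card_fin, nsmul_eq_mul,
      Finset.sum_comm] at h2
    have h3 : ∑ i, ∑ j, ‖(inner ℂ e (minor X i j) : ℂ)‖ ^ 2 = ∑ y : Fin n, ∑ x : Fin n,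
        ‖(inner ℂ e (X y.succ x.succ) : ℂ)‖ ^ 2 := rfl
    rw [h3]
    linarith
  · -- the first order condition at the pivot
    have h1 := ho3 0 (Fin.cons e (fun _ => 0))
    have h2 : fdet Φ (Function.update X 0 (Fin.cons e (fun _ => 0))) = fdet (Φ.curryLeft e) (minor X) := by
      rw [hE V n Φ _ (fun j => by rw [Function.update_self]; rfl), Function.update_self]
      have h3 : minor (Function.update X 0 (Fin.cons e (fun _ => 0))) = minor X := by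
        funext i j
        unfold minor
        rw [Function.update_of_ne (Fin.succ_ne_zero i)]
      rw [h3]; rfl
    have h3 : ∑ j, inner ℂ (X 0 j) ((Fin.cons e (fun _ => 0) : Fin (n + 1) → V) j) = (μ : ℂ) := by
      rw [Fin.sum_univ_succ]
      simp only [Fin.cons_zero, Fin.cons_succ, inner_zero_right, Finset.sum_const_zero, add_zero]
      rw [hX00, inner_smul_left, inner_self_eq_norm_sq_to_K, he1]
      simp
    rw [h2, h3] at h1
    rw [h1, norm_mul, Complex.norm_real, Real.norm_eq_abs, abs_of_pos hμ0, hdet]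

/-- The inductive step: the estimate of the `Φ_e`-determinant of the minor, for every parameter `τ > 0`. -/
theorem minor_bd (hL : ST_LEM) [FiniteDimensional ℂ V] {n : ℕ} (hn : 1 ≤ n)
    (IH : ∀ Ψ : MultilinearMap ℂ (fun _ : Fin n => V) ℂ, SymF Ψ → UnitF Ψ → ∀ Y : Fin n → Fin n → V,
      ‖fdet Ψ Y‖ ^ 2 * (n : ℝ) ^ n ≤ nsq Y ^ n)
    {Φ : MultilinearMap ℂ (fun _ : Fin (n + 1) => V) ℂ} (hΦ : SymF Φ) (hU : UnitF Φ) (e : V) (he : ‖e‖ = 1)
    (τ : ℝ) (hτ : 0 < τ) (Y : Fin n → Fin n → V) :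
    τ ^ (n - 1) * ‖fdet (Φ.curryLeft e) Y‖ ^ 2 * (n : ℝ) ^ n ≤
      ((1 + (n - 1) * τ) / n * ∑ i, ∑ j, ‖(inner ℂ e (Y i j) : ℂ)‖ ^ 2 +
        (1 + (n + 1) * (n - 1) * τ) / n ^ 2 * (nsq Y - ∑ i, ∑ j, ‖(inner ℂ e (Y i j) : ℂ)‖ ^ 2)) ^ n := by
  have hn0 : (0 : ℝ) < n := by exact_mod_cast hn
  have hn1 : (0 : ℝ) ≤ n - 1 := by
    have : (1 : ℝ) ≤ n := by exact_mod_cast hn
    linarith
  set α : ℝ := Real.sqrt ((1 + (n - 1) * τ) / n) with hα
  set β : ℝ := Real.sqrt ((1 + (n + 1) * (n - 1) * τ) / n ^ 2) with hβ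
  have hα2 : α ^ 2 = (1 + (n - 1) * τ) / n := Real.sq_sqrt (by positivity)
  have hβ2 : β ^ 2 = (1 + (n + 1) * (n - 1) * τ) / n ^ 2 := Real.sq_sqrt (by positivity)
  have hα0 : 0 < α := Real.sqrt_pos.2 (by positivity)
  have hβ0 : 0 < β := Real.sqrt_pos.2 (by positivity)
  set κ : ℝ := Real.sqrt (τ ^ (n - 1)) with hκ
  have hκ2 : κ ^ 2 = τ ^ (n - 1) := Real.sq_sqrt (by positivity)
  have hκ0 : 0 ≤ κ := Real.sqrt_nonneg _
  set Ψ : MultilinearMap ℂ (fun _ : Fin n => V) ℂ :=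
    (κ : ℂ) • (Φ.curryLeft e).compLinearMap (fun _ => scl e α⁻¹ β⁻¹) with hΨ
  have hS : SymF Ψ := (hΦ.curry e).comp _ _
  have hUn : UnitF Ψ := by
    intro w
    have h1 : Ψ (fun _ => w) = κ * Φ.curryLeft e (fun _ => scl e α⁻¹ β⁻¹ w) := by
      rw [hΨ]; simp only [_root_.smul_apply, MultilinearMap.compLinearMap_apply, smul_eq_mul]
    set z : ℂ := (α⁻¹ : ℝ) * inner ℂ e w with hz
    set v : V := ((β⁻¹ : ℝ) : ℂ) • (w - (inner ℂ e w : ℂ) • e) with hv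
    have h2 : scl e α⁻¹ β⁻¹ w = z • e + v := scl_apply e α⁻¹ β⁻¹ w
    have h3 := (hL V n Φ hn hΦ hU e v z he (by rw [hv, inner_smul_right, ort_dec e w he, mul_zero])).1
    rw [← h2] at h3
    set P1 : ℝ := ‖z‖ ^ 2 + ‖v‖ ^ 2 / n with hP1
    set P2 : ℝ := ‖z‖ ^ 2 + (n + 1) * ‖v‖ ^ 2 / n with hP2
    have hP1' : 0 ≤ P1 := by positivity
    have hP2' : 0 ≤ P2 := by positivity
    have h4 := amgm n hn P1 (τ * P2) hP1' (by positivity)
    have h5 : (P1 + (n - 1) * (τ * P2)) / n = ‖w‖ ^ 2 := by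
      rw [nrm_dec' e w he]
      have h6 : ‖z‖ ^ 2 = ‖(inner ℂ e w : ℂ)‖ ^ 2 / α ^ 2 := by
        rw [hz, norm_mul, mul_pow, Complex.norm_real, Real.norm_eq_abs, sq_abs, inv_pow]; field_simp
      have h7 : ‖v‖ ^ 2 = ‖w - (inner ℂ e w : ℂ) • e‖ ^ 2 / β ^ 2 := by
        rw [hv, norm_smul, mul_pow, Complex.norm_real, Real.norm_eq_abs, sq_abs, inv_pow]; field_simp
      have h8 : (P1 + (n - 1) * (τ * P2)) / n = α ^ 2 * ‖z‖ ^ 2 + β ^ 2 * ‖v‖ ^ 2 := by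
        rw [hP1, hP2, hα2, hβ2]; field_simp; ring
      rw [h8, h6, h7]
      field_simp
    rw [h5] at h4
    have h6 : ‖Ψ (fun _ => w)‖ ^ 2 ≤ (‖w‖ ^ n) ^ 2 := by
      rw [h1, norm_mul, mul_pow, Complex.norm_real, Real.norm_eq_abs, sq_abs, hκ2]
      calc τ ^ (n - 1) * ‖Φ.curryLeft e (fun _ => scl e α⁻¹ β⁻¹ w)‖ ^ 2
          ≤ τ ^ (n - 1) * (P1 * P2 ^ (n - 1)) := by gcongr
        _ = P1 * (τ * P2) ^ (n - 1) := by rw [mul_pow]; ring
        _ ≤ (‖w‖ ^ 2) ^ n := h4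
        _ = (‖w‖ ^ n) ^ 2 := by ring
    exact le_of_sq_le_sq h6 (by positivity)
  have h1 := IH Ψ hS hUn (fun i j => scl e α β (Y i j))
  have h2 : fdet Ψ (fun i j => scl e α β (Y i j)) = κ * fdet (Φ.curryLeft e) Y := by
    rw [hΨ, fdet_comp]
    congr 2
    funext i j
    exact scl_scl e α β _ he hα0.ne' hβ0.ne'
  have h3 : nsq (fun i j => scl e α β (Y i j)) = (1 + (n - 1) * τ) / n * ∑ i, ∑ j, ‖(inner ℂ e (Y i j) : ℂ)‖ ^ 2 +
        (1 + (n + 1) * (n - 1) * τ) / n ^ 2 * (nsq Y - ∑ i, ∑ j, ‖(inner ℂ e (Y i j) : ℂ)‖ ^ 2) := by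
    unfold nsq
    rw [← hα2, ← hβ2, ← Finset.sum_sub_distrib, Finset.mul_sum, Finset.mul_sum, ← Finset.sum_add_distrib]
    refine Finset.sum_congr rfl fun i _ => ?_
    rw [← Finset.sum_sub_distrib, Finset.mul_sum, Finset.mul_sum, ← Finset.sum_add_distrib]
    refine Finset.sum_congr rfl fun j _ => ?_
    rw [nrm_scl e α β _ he]
    have := nrm_dec' e (Y i j) he
    rw [this]; ring
  rw [h2, h3, norm_mul, mul_pow, Complex.norm_real, Real.norm_eq_abs, sq_abs, hκ2] at h1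
  exact h1

theorem sq_bd {a b : ℝ} (h : a ^ 2 ≤ b ^ 2) (hb : 0 ≤ b) : a ≤ b := le_of_sq_le_sq h hb

/-- the bound for a maximiser -/
theorem max_le_one (hL : ST_LEM) (hD : ST_DET) (hE : ST_EXP) (hO : ST_ORT) (hP : ST_PIV)
    [FiniteDimensional ℂ V] {n : ℕ} (hn : 1 ≤ n)
    (IH : ∀ Ψ : MultilinearMap ℂ (fun _ : Fin n => V) ℂ, SymF Ψ → UnitF Ψ → ∀ Y : Fin n → Fin n → V,
      ‖fdet Ψ Y‖ ^ 2 * (n : ℝ) ^ n ≤ nsq Y ^ n)
    {Φ : MultilinearMap ℂ (fun _ : Fin (n + 1) => V) ℂ} (hΦ : SymF Φ) (hU : UnitF Φ)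
    {X : Fin (n + 1) → Fin (n + 1) → V} (hX : IsMax Φ X) : ‖fdet Φ X‖ ^ 2 ≤ 1 := by
  have hn0 : (0 : ℝ) < n := by exact_mod_cast hn
  have hn1 : (0 : ℝ) ≤ n - 1 := by
    have : (1 : ℝ) ≤ n := by exact_mod_cast hn
    linarith
  obtain ⟨A, hA, B, hB, e, μ, hX', hdet, he, hμ0, hX00, hμ1, hμ2, hmax, hrow, hcol, hns, hS, hM⟩ :=
    pivot_facts hE hO hP hD hΦ hX
  set t := μ ^ 2 with ht
  have ht0 : 0 < t := by positivity
  have h1 := minor_bd hL hn IH hΦ hU e he t ht0 (minor (mix A X B))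
  rw [hns, ← hM] at h1
  set S := ∑ i, ∑ j, ‖(inner ℂ e (minor (mix A X B) i j) : ℂ)‖ ^ 2 with hSd
  have h2 : (1 + (n - 1) * t) / n * S + (1 + (n + 1) * (n - 1) * t) / n ^ 2 * ((n : ℝ) - 1 + t - S) ≤ t * n := by
    have h3 : (1 + (n - 1) * t) / n * S + (1 + (n + 1) * (n - 1) * t) / n ^ 2 * ((n : ℝ) - 1 + t - S) =
        t * n - (n - 1) * (1 - t) / n ^ 2 * ((n + 1) * t - 1 - S) := by
      field_simp; ring
    rw [h3]
    have h4 : 0 ≤ (n - 1) * (1 - t) / (n : ℝ) ^ 2 * ((n + 1) * t - 1 - S) := by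
      have h5 : 0 ≤ 1 - t := by linarith
      have h6 : 0 ≤ (n + 1) * t - 1 - S := by linarith
      positivity
    linarith
  have hS0 : 0 ≤ S := Finset.sum_nonneg fun _ _ => Finset.sum_nonneg fun _ _ => by positivity
  have hSle : S ≤ n - 1 + t := by
    rw [hSd, ← hns]
    unfold nsq
    refine Finset.sum_le_sum fun i _ => Finset.sum_le_sum fun j _ => ?_
    have := nrm_dec' e (minor (mix A X B) i j) he
    rw [this]
    have : 0 ≤ ‖minor (mix A X B) i j - (inner ℂ e (minor (mix A X B) i j) : ℂ) • e‖ ^ 2 := by positivity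
    linarith
  have h3 : (0 : ℝ) ≤ (1 + (n - 1) * t) / n * S + (1 + (n + 1) * (n - 1) * t) / n ^ 2 * ((n : ℝ) - 1 + t - S) := by
    have h5 : 0 ≤ (n : ℝ) - 1 + t - S := by linarith
    positivity
  have h4 : t ^ (n - 1) * (‖fdet Φ X‖ * μ) ^ 2 * (n : ℝ) ^ n ≤ t ^ n * (n : ℝ) ^ n := by
    refine h1.trans ?_
    rw [← mul_pow]
    exact pow_le_pow_left₀ h3 h2 n
  have h5 : t ^ (n - 1) * (‖fdet Φ X‖ * μ) ^ 2 = t ^ n * ‖fdet Φ X‖ ^ 2 := by
    have : t ^ n = t ^ (n - 1) * t := by rw [← pow_succ]; congr 1; omega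
    rw [this, mul_pow]; ring
  rw [h5] at h4
  have h6 : (t ^ n * (n : ℝ) ^ n) * ‖fdet Φ X‖ ^ 2 ≤ (t ^ n * (n : ℝ) ^ n) * 1 := by nlinarith
  exact le_of_mul_le_mul_left h6 (by positivity)

theorem fdet_fin_one (Φ : MultilinearMap ℂ (fun _ : Fin 1 => V) ℂ) (Y : Fin 1 → Fin 1 → V) :
    fdet Φ Y = Φ (fun _ => Y 0 0) := by
  unfold fdet
  rw [Fintype.sum_unique]
  have : (fun i => Y i ((default : Equiv.Perm (Fin 1)) i)) = (fun _ => Y 0 0) := by
    funext i; rw [Subsingleton.elim i 0, Subsingleton.elim ((default : Equiv.Perm (Fin 1)) 0) 0]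
  rw [this]; simp

theorem mix_scal [FiniteDimensional ℂ V] {n : ℕ} (hD : ST_DET) {Φ : MultilinearMap ℂ (fun _ : Fin n => V) ℂ} (hΦ : SymF Φ)
    (c : ℂ) (X : Fin n → Fin n → V) : fdet Φ (fun i j => c • X i j) = c ^ n * fdet Φ X := by
  have h1 : (fun i j => c • X i j) = mix (Matrix.diagonal (fun _ => c)) X 1 := by
    funext i j; rw [mix_diagonal]
  rw [h1, (hD V n Φ hΦ).1, Matrix.det_diagonal, Matrix.det_one]
  simp

end

/-- AD -/
theorem st_AD (hL : ST_LEM) (hD : ST_DET) (hE : ST_EXP) (hX : ST_EXM) (hO : ST_ORT) (hP : ST_PIV) :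
    ST_AD := by
  intro V _ _ _ n
  induction n with
  | zero =>
    intro Φ hΦ hU X
    have h1 : fdet Φ X = Φ (fun _ => 0) := by
      unfold fdet
      rw [Fintype.sum_unique]
      have : (fun i => X i ((default : Equiv.Perm (Fin 0)) i)) = (fun _ => (0 : V)) := by
        funext i; exact Fin.elim0 i
      rw [this]; simp
    have h2 := hU 0
    rw [pow_zero] at h2
    rw [h1]; simp only [pow_zero, mul_one]
    nlinarith [norm_nonneg (Φ (fun _ => (0 : V)))]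
  | succ n IH =>
    intro Φ hΦ hU X
    by_cases hz : ∃ Y, fdet Φ Y ≠ 0
    · obtain ⟨Y, hY⟩ := hX V (n + 1) Φ (by omega) hz
      have hM : ‖fdet Φ Y‖ ^ 2 ≤ 1 := by
        rcases Nat.eq_zero_or_pos n with hn | hn
        · subst hn
          have h1 : fdet Φ Y = Φ (fun _ => Y 0 0) := fdet_fin_one Φ Y
          have h2 : ‖Y 0 0‖ ^ 2 = 1 := by
            have := hY.1
            unfold nsq at this
            simpa using this
          have h3 := hU (Y 0 0)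
          rw [h1]
          simp only [zero_add, pow_one] at h3
          nlinarith [norm_nonneg (Φ (fun _ => Y 0 0)), norm_nonneg (Y 0 0)]
        · exact max_le_one hL hD hE hO hP hn IH hΦ hU hY
      set m := nsq X with hm
      rcases (nsq_nonneg X).lt_or_eq with h0 | h0
      · have hN0 : (0 : ℝ) < ((n + 1 : ℕ) : ℝ) := by positivity
        set c : ℝ := Real.sqrt (((n + 1 : ℕ) : ℝ) / m) with hc
        have hc2 : c ^ 2 = ((n + 1 : ℕ) : ℝ) / m := Real.sq_sqrt (by positivity)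
        have h1 : nsq (fun i j => (c : ℂ) • X i j) = ((n + 1 : ℕ) : ℝ) := by
          rw [nsq_smul, Complex.norm_real, Real.norm_eq_abs, sq_abs, hc2, ← hm, div_mul_cancel₀ _ h0.ne']
        have h2 := hY.2.2 _ h1
        rw [mix_scal hD hΦ, norm_mul, norm_pow, Complex.norm_real, Real.norm_eq_abs] at h2
        have h3 : (|c| ^ (n + 1) * ‖fdet Φ X‖) ^ 2 ≤ 1 := by
          calc (|c| ^ (n + 1) * ‖fdet Φ X‖) ^ 2 ≤ ‖fdet Φ Y‖ ^ 2 := by gcongr
            _ ≤ 1 := hM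
        have h4 : (|c| ^ (n + 1) * ‖fdet Φ X‖) ^ 2 = (((n + 1 : ℕ) : ℝ) / m) ^ (n + 1) * ‖fdet Φ X‖ ^ 2 := by
          rw [mul_pow, ← pow_mul, mul_comm (n + 1) 2, pow_mul, sq_abs, hc2]
        rw [h4, div_pow, div_mul_eq_mul_div, div_le_one (by positivity)] at h3
        linarith
      · rw [fdet_of_zero Φ X 0 (fun j => nsq_eq_zero h0.symm _ _)]
        rw [norm_zero, hm, ← h0]; simp
    · push Not at hz
      rw [hz X, norm_zero]
      have := nsq_nonneg X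
      have h2 : (0 : ℝ) ≤ nsq X ^ (n + 1) := by positivity
      simpa using h2

end HD
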