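import Pool.Agent.Helper87.HD.AD
import Pool.Agent.Helper40.HD.PIV

set_option autoImplicit false

open Finset

namespace HD

/-- Bernoulli with a quadratic term -/
theorem bern (n : ℕ) (hn : 2 ≤ n) (x : ℝ) (hx : -1 ≤ x) : 1 + n * x + x ^ 2 ≤ (1 + x) ^ n := by
  induction n, hn using Nat.le_induction with
  | base => push_cast; nlinarith
  | succ n hn ih =>
    have h1 : (2 : ℝ) ≤ n := by exact_mod_cast hn
    rw [pow_succ]
    have h2 : (1 + n * x + x ^ 2) * (1 + x) ≤ (1 + x) ^ n * (1 + x) :=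
      mul_le_mul_of_nonneg_right ih (by linarith)
    refine le_trans ?_ h2
    push_cast
    nlinarith [mul_nonneg (sq_nonneg x) (by linarith : (0 : ℝ) ≤ n + x)]

/-- strict AM-GM with weights `1` and `n - 1` -/
theorem amgm_strict (n : ℕ) (hn : 2 ≤ n) (a b : ℝ) (ha : 0 ≤ a) (hb : 0 < b) (hab : a ≠ b) :
    a * b ^ (n - 1) < ((a + (n - 1) * b) / n) ^ n := by
  have hn0 : (2 : ℝ) ≤ n := by exact_mod_cast hn
  set m : ℝ := (a + (n - 1) * b) / n with hm
  have hm0 : 0 ≤ m := by
    have : (0 : ℝ) ≤ n - 1 := by linarith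
    positivity
  have h1 : (-1 : ℝ) ≤ m / b - 1 := by
    have : 0 ≤ m / b := by positivity
    linarith
  have h2 := bern n hn (m / b - 1) h1
  have h3 : 1 + (n : ℝ) * (m / b - 1) = a / b := by
    rw [hm]; field_simp; ring
  have h4 : 1 + (m / b - 1) = m / b := by ring
  have h5 : m ≠ b := by
    intro h
    rw [hm, div_eq_iff (by linarith)] at h
    exact hab (by linarith)
  have h6 : 0 < (m / b - 1) ^ 2 := by
    have : m / b - 1 ≠ 0 := by
      intro h
      have : m / b = 1 := by linarith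
      rw [div_eq_one_iff_eq hb.ne'] at this
      exact h5 this
    positivity
  rw [h3, h4] at h2
  have h7 : a / b < (m / b) ^ n := by linarith
  rw [div_pow, div_lt_div_iff₀ hb (by positivity)] at h7
  have h8 : b ^ n = b ^ (n - 1) * b := by rw [← pow_succ]; congr 1; omega
  rw [h8] at h7
  have h9 : (a * b ^ (n - 1)) * b < m ^ n * b := by nlinarith
  exact lt_of_mul_lt_mul_right h9 hb.le

theorem ml_cont {V : Type} [NormedAddCommGroup V] [InnerProductSpace ℂ V] [FiniteDimensional ℂ V] {n : ℕ}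
    (Ψ : MultilinearMap ℂ (fun _ : Fin n => V) ℂ) : Continuous Ψ := by
  classical
  set b := Module.finBasis ℂ V with hb
  have h : ∀ x : Fin n → V, Ψ x = ∑ r : Fin n → Fin (Module.finrank ℂ V),
      (∏ i, b.repr (x i) (r i)) * Ψ (fun i => b (r i)) := by
    intro x
    have h1 : x = fun i => ∑ j, b.repr (x i) j • b j := by
      funext i; exact (b.sum_repr (x i)).symm
    conv_lhs => rw [h1]
    rw [Ψ.map_sum]
    refine Finset.sum_congr rfl fun r _ => ?_
    rw [Ψ.map_smul_univ (fun i => b.repr (x i) (r i)) (fun i => b (r i)), smul_eq_mul]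
  have h2 : (Ψ : (Fin n → V) → ℂ) = fun x => ∑ r : Fin n → Fin (Module.finrank ℂ V),
      (∏ i, b.repr (x i) (r i)) * Ψ (fun i => b (r i)) := funext h
  rw [h2]
  refine continuous_finsetSum _ fun r _ => ?_
  refine Continuous.mul ?_ continuous_const
  refine continuous_finsetProd _ fun i _ => ?_
  have h3 : Continuous (b.coord (r i)) := LinearMap.continuous_of_finiteDimensional _
  exact h3.comp (continuous_apply i)

section

variable {V : Type} [NormedAddCommGroup V] [InnerProductSpace ℂ V]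

theorem mix_mix {n : ℕ} (A A' B B' : Matrix (Fin n) (Fin n) ℂ) (X : Fin n → Fin n → V) :
    mix A' (mix A X B) B' = mix (A' * A) X (B * B') := by
  funext i j
  unfold mix
  simp only [Finset.smul_sum, smul_smul, Matrix.mul_apply, Finset.sum_mul_sum, Finset.sum_smul]
  -- sum over k l k' l'
  calc ∑ k, ∑ l, ∑ k', ∑ l', (A' i k * B' l j * (A k k' * B l' l)) • X k' l'
      = ∑ k', ∑ l', ∑ k, ∑ l, (A' i k * B' l j * (A k k' * B l' l)) • X k' l' := by
        rw [Finset.sum_congr rfl fun k _ => Finset.sum_comm]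
        rw [Finset.sum_comm]
        refine Finset.sum_congr rfl fun k' _ => ?_
        rw [Finset.sum_congr rfl fun k _ => Finset.sum_comm]
        rw [Finset.sum_comm]
    _ = _ := by
        refine Finset.sum_congr rfl fun k' _ => Finset.sum_congr rfl fun l' _ =>
          Finset.sum_congr rfl fun k _ => Finset.sum_congr rfl fun l _ => ?_
        congr 1; ring

theorem mix_one_one {n : ℕ} (X : Fin n → Fin n → V) : mix 1 X 1 = X := by
  funext i j
  rw [mix_one_right, Finset.sum_eq_single i]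
  · simp
  · intro k _ hk; rw [Matrix.one_apply_ne (Ne.symm hk), zero_smul]
  · simp

/-- strict version of the unit bound: the renormalised `Φ_e` has norm smaller than one if `τ ≠ 1, 1 / (n + 1)`. -/
theorem minor_strict (hL : ST_LEM) [FiniteDimensional ℂ V] {n : ℕ} (hn : 2 ≤ n)
    (IH : ∀ Ψ : MultilinearMap ℂ (fun _ : Fin n => V) ℂ, SymF Ψ → UnitF Ψ → ∀ Y : Fin n → Fin n → V,
      ‖fdet Ψ Y‖ ^ 2 * (n : ℝ) ^ n ≤ nsq Y ^ n)
    {Φ : MultilinearMap ℂ (fun _ : Fin (n + 1) => V) ℂ} (hΦ : SymF Φ) (hU : UnitF Φ) (e : V) (he : ‖e‖ = 1)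
    (τ : ℝ) (hτ : 0 < τ) (hτ1 : τ ≠ 1) (hτ2 : (n + 1) * τ ≠ 1) : ∃ ρ : ℝ, 0 < ρ ∧ ρ < 1 ∧ ∀ Y : Fin n → Fin n → V,
    τ ^ (n - 1) * ‖fdet (Φ.curryLeft e) Y‖ ^ 2 * (n : ℝ) ^ n ≤
      ρ ^ 2 * ((1 + (n - 1) * τ) / n * ∑ i, ∑ j, ‖(inner ℂ e (Y i j) : ℂ)‖ ^ 2 +
        (1 + (n + 1) * (n - 1) * τ) / n ^ 2 * (nsq Y - ∑ i, ∑ j, ‖(inner ℂ e (Y i j) : ℂ)‖ ^ 2)) ^ n := by
  have hn0 : (0 : ℝ) < n := by exact_mod_cast (by omega : 0 < n)
  have hn1 : (0 : ℝ) < n - 1 := by
    have : (2 : ℝ) ≤ n := by exact_mod_cast hn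
    linarith
  set α : ℝ := Real.sqrt ((1 + (n - 1) * τ) / n) with hα
  set β : ℝ := Real.sqrt ((1 + (n + 1) * (n - 1) * τ) / n ^ 2) with hβ
  have hα2 : α ^ 2 = (1 + (n - 1) * τ) / n := Real.sq_sqrt (by positivity)
  have hβ2 : β ^ 2 = (1 + (n + 1) * (n - 1) * τ) / n ^ 2 := Real.sq_sqrt (by positivity)
  have hα0 : 0 < α := Real.sqrt_pos.2 (by positivity)
  have hβ0 : 0 < β := Real.sqrt_pos.2 (by positivity)
  set κ : ℝ := Real.sqrt (τ ^ (n - 1)) with hκ
  have hκ2 : κ ^ 2 = τ ^ (n - 1) := Real.sq_sqrt (by positivity)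
  have hκ0 : 0 < κ := Real.sqrt_pos.2 (by positivity)
  set Ψ : MultilinearMap ℂ (fun _ : Fin n => V) ℂ :=
    (κ : ℂ) • (Φ.curryLeft e).compLinearMap (fun _ => scl e α⁻¹ β⁻¹) with hΨ
  have hS : SymF Ψ := (hΦ.curry e).comp _ _
  have hUn : ∀ w : V, w ≠ 0 → ‖Ψ (fun _ => w)‖ < ‖w‖ ^ n := by
    intro w hw
    have h1 : Ψ (fun _ => w) = κ * Φ.curryLeft e (fun _ => scl e α⁻¹ β⁻¹ w) := by
      rw [hΨ]; simp only [_root_.smul_apply, MultilinearMap.compLinearMap_apply, smul_eq_mul]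
    set z : ℂ := (α⁻¹ : ℝ) * inner ℂ e w with hz
    set v : V := ((β⁻¹ : ℝ) : ℂ) • (w - (inner ℂ e w : ℂ) • e) with hv
    have h2 : scl e α⁻¹ β⁻¹ w = z • e + v := scl_apply e α⁻¹ β⁻¹ w
    have hLL := hL V n Φ (by omega) hΦ hU e v z he (by rw [hv, inner_smul_right, ort_dec e w he, mul_zero])
    rw [← h2] at hLL
    set P1 : ℝ := ‖z‖ ^ 2 + ‖v‖ ^ 2 / n with hP1
    set P2 : ℝ := ‖z‖ ^ 2 + (n + 1) * ‖v‖ ^ 2 / n with hP2
    have hP1' : 0 ≤ P1 := by positivity
    have hP2' : 0 ≤ P2 := by positivity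
    have hw2 : 0 < ‖w‖ ^ 2 := by positivity
    have h5 : (P1 + (n - 1) * (τ * P2)) / n = ‖w‖ ^ 2 := by
      rw [nrm_dec' e w he]
      have h6 : ‖z‖ ^ 2 = ‖(inner ℂ e w : ℂ)‖ ^ 2 / α ^ 2 := by
        rw [hz, norm_mul, mul_pow, Complex.norm_real, Real.norm_eq_abs, sq_abs, inv_pow]; field_simp
      have h7 : ‖v‖ ^ 2 = ‖w - (inner ℂ e w : ℂ) • e‖ ^ 2 / β ^ 2 := by
        rw [hv, norm_smul, mul_pow, Complex.norm_real, Real.norm_eq_abs, sq_abs, inv_pow]; field_simp
      have h8 : (P1 + (n - 1) * (τ * P2)) / n = α ^ 2 * ‖z‖ ^ 2 + β ^ 2 * ‖v‖ ^ 2 := by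
        rw [hP1, hP2, hα2, hβ2]; field_simp; ring
      rw [h8, h6, h7]
      field_simp
    have hstr : τ ^ (n - 1) * ‖Φ.curryLeft e (fun _ => scl e α⁻¹ β⁻¹ w)‖ ^ 2 < (‖w‖ ^ 2) ^ n := by
      by_cases hz0 : z = 0
      · have hv0 : v ≠ 0 := by
          intro h
          rw [hP1, hP2, hz0, h] at h5
          simp at h5
          exact hw2.ne h5
        have hv2 : 0 < ‖v‖ ^ 2 := by positivity
        have h9 : P1 ≠ τ * P2 := by
          rw [hP1, hP2, hz0]
          intro h
          apply hτ2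
          simp only [norm_zero] at h
          field_simp at h
          nlinarith
        have hb : 0 < τ * P2 := by rw [hP2]; positivity
        have h4 := amgm_strict n hn P1 (τ * P2) hP1' hb h9
        rw [h5] at h4
        calc τ ^ (n - 1) * ‖Φ.curryLeft e (fun _ => scl e α⁻¹ β⁻¹ w)‖ ^ 2
            ≤ τ ^ (n - 1) * (P1 * P2 ^ (n - 1)) := by gcongr; exact hLL.1
          _ = P1 * (τ * P2) ^ (n - 1) := by rw [mul_pow]; ring
          _ < (‖w‖ ^ 2) ^ n := h4
      · by_cases hv0 : v = 0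
        · have hz2 : 0 < ‖z‖ ^ 2 := by positivity
          have h9 : P1 ≠ τ * P2 := by
            rw [hP1, hP2, hv0]
            intro h
            apply hτ1
            have h' : ‖z‖ ^ 2 * τ = ‖z‖ ^ 2 * 1 := by
              simp only [norm_zero] at h
              rw [mul_comm τ] at h
              simpa using h.symm
            exact mul_left_cancel₀ hz2.ne' h'
          have hb : 0 < τ * P2 := by rw [hP2]; positivity
          have h4 := amgm_strict n hn P1 (τ * P2) hP1' hb h9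
          rw [h5] at h4
          calc τ ^ (n - 1) * ‖Φ.curryLeft e (fun _ => scl e α⁻¹ β⁻¹ w)‖ ^ 2
              ≤ τ ^ (n - 1) * (P1 * P2 ^ (n - 1)) := by gcongr; exact hLL.1
            _ = P1 * (τ * P2) ^ (n - 1) := by rw [mul_pow]; ring
            _ < (‖w‖ ^ 2) ^ n := h4
        · have h3 := hLL.2 hn hz0 hv0
          have h4 := amgm n (by omega) P1 (τ * P2) hP1' (by positivity)
          rw [h5] at h4
          calc τ ^ (n - 1) * ‖Φ.curryLeft e (fun _ => scl e α⁻¹ β⁻¹ w)‖ ^ 2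
              < τ ^ (n - 1) * (P1 * P2 ^ (n - 1)) := by gcongr
            _ = P1 * (τ * P2) ^ (n - 1) := by rw [mul_pow]; ring
            _ ≤ (‖w‖ ^ 2) ^ n := h4
    have h6 : ‖Ψ (fun _ => w)‖ ^ 2 < (‖w‖ ^ n) ^ 2 := by
      rw [h1, norm_mul, mul_pow, Complex.norm_real, Real.norm_eq_abs, sq_abs, hκ2]
      calc _ < (‖w‖ ^ 2) ^ n := hstr
        _ = (‖w‖ ^ n) ^ 2 := by ring
    exact lt_of_pow_lt_pow_left₀ 2 (by positivity) h6
  -- compactness
  have hcomp : ∃ ρ : ℝ, 0 < ρ ∧ ρ < 1 ∧ ∀ w : V, ‖Ψ (fun _ => w)‖ ≤ ρ * ‖w‖ ^ n := by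
    have hcont : Continuous (fun w : V => ‖Ψ (fun _ => w)‖) := by
      have h1 : Continuous Ψ := ml_cont Ψ
      exact (h1.comp (continuous_pi fun _ => continuous_id)).norm
    by_cases hne : (Metric.sphere (0 : V) 1).Nonempty
    · have : ProperSpace V := FiniteDimensional.proper ℂ V
      obtain ⟨w0, hw0, hmax⟩ := (isCompact_sphere (0 : V) 1).exists_isMaxOn hne hcont.continuousOn
      have hw1 : ‖w0‖ = 1 := by simpa using hw0
      have h2 : ‖Ψ (fun _ => w0)‖ < 1 := by
        have := hUn w0 (by intro h; rw [h, norm_zero] at hw1; exact zero_ne_one hw1)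
        rwa [hw1, one_pow] at this
      refine ⟨max (1 / 2) ‖Ψ (fun _ => w0)‖, by positivity, max_lt (by norm_num) h2, fun w => ?_⟩
      by_cases hw : w = 0
      · subst hw
        have : Ψ (fun _ => (0 : V)) = 0 := by
          have : Nonempty (Fin n) := ⟨⟨0, by omega⟩⟩
          obtain ⟨i⟩ := this
          exact Ψ.map_coord_zero i rfl
        rw [this, norm_zero]; positivity
      · have hwn : 0 < ‖w‖ := norm_pos_iff.2 hw
        have hu : ‖((‖w‖ : ℝ) : ℂ)⁻¹ • w‖ = 1 := by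
          rw [norm_smul, norm_inv, Complex.norm_real, norm_norm, inv_mul_cancel₀ hwn.ne']
        have h3 := hmax (show ((‖w‖ : ℝ) : ℂ)⁻¹ • w ∈ Metric.sphere (0 : V) 1 by simpa using hu)
        simp only [Set.mem_ofPred_eq] at h3
        have h4 : Ψ (fun _ => w) = ((‖w‖ : ℝ) : ℂ) ^ n * Ψ (fun _ => ((‖w‖ : ℝ) : ℂ)⁻¹ • w) := by
          have h5 := Ψ.map_smul_univ (fun _ => ((‖w‖ : ℝ) : ℂ)) (fun _ => ((‖w‖ : ℝ) : ℂ)⁻¹ • w)
          rw [Finset.prod_const, Finset.card_univ, Fintype.card_fin, smul_eq_mul] at h5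
          rw [← h5]
          congr 1
          funext i
          rw [smul_smul, mul_inv_cancel₀ (by exact_mod_cast hwn.ne'), one_smul]
        rw [h4, norm_mul, norm_pow, Complex.norm_real, norm_norm, mul_comm]
        exact mul_le_mul_of_nonneg_right (h3.trans (le_max_right _ _)) (by positivity)
    · refine ⟨1 / 2, by norm_num, by norm_num, fun w => ?_⟩
      have hw : w = 0 := by
        by_contra hw
        apply hne
        refine ⟨((‖w‖ : ℝ) : ℂ)⁻¹ • w, ?_⟩
        have hwn : 0 < ‖w‖ := norm_pos_iff.2 hw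
        rw [mem_sphere_zero_iff_norm, norm_smul, norm_inv, Complex.norm_real, norm_norm, inv_mul_cancel₀ hwn.ne']
      subst hw
      have : Ψ (fun _ => (0 : V)) = 0 := by
        have : Nonempty (Fin n) := ⟨⟨0, by omega⟩⟩
        obtain ⟨i⟩ := this
        exact Ψ.map_coord_zero i rfl
      rw [this, norm_zero]; positivity
  obtain ⟨ρ, hρ0, hρ1, hρ⟩ := hcomp
  refine ⟨ρ, hρ0, hρ1, fun Y => ?_⟩
  have hρc : (ρ : ℂ) ≠ 0 := by exact_mod_cast hρ0.ne'
  have hS' : SymF (((ρ⁻¹ : ℝ) : ℂ) • Ψ) := by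
    intro σ x
    simp only [_root_.smul_apply]
    rw [hS σ x]
  have hU' : UnitF (((ρ⁻¹ : ℝ) : ℂ) • Ψ) := by
    intro w
    simp only [_root_.smul_apply, smul_eq_mul, norm_mul, Complex.norm_real, Real.norm_eq_abs]
    rw [abs_of_pos (by positivity), inv_mul_le_iff₀ hρ0]
    exact hρ w
  have h1 := IH _ hS' hU' (fun i j => scl e α β (Y i j))
  have h2 : fdet (((ρ⁻¹ : ℝ) : ℂ) • Ψ) (fun i j => scl e α β (Y i j)) = (ρ⁻¹ : ℝ) * (κ * fdet (Φ.curryLeft e) Y) := by
    have h3 : fdet (((ρ⁻¹ : ℝ) : ℂ) • Ψ) (fun i j => scl e α β (Y i j)) =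
        (ρ⁻¹ : ℝ) * fdet Ψ (fun i j => scl e α β (Y i j)) := by
      unfold fdet
      rw [Finset.mul_sum]
      refine Finset.sum_congr rfl fun σ _ => ?_
      simp only [_root_.smul_apply, smul_eq_mul]; ring
    rw [h3, hΨ, fdet_comp]
    congr 3
    funext i j
    exact scl_scl e α β _ he hα0.ne' hβ0.ne'
  have h3 : nsq (fun i j => scl e α β (Y i j)) = (1 + (n - 1) * τ) / n * ∑ i, ∑ j, ‖(inner ℂ e (Y i j) : ℂ)‖ ^ 2 +
        (1 + (n + 1) * (n - 1) * τ) / n ^ 2 * (nsq Y - ∑ i, ∑ j, ‖(inner ℂ e (Y i j) : ℂ)‖ ^ 2) := by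
    unfold nsq
    rw [← hα2, ← hβ2, ← Finset.sum_sub_distrib, Finset.mul_sum, Finset.mul_sum, ← Finset.sum_add_distrib]
    refine Finset.sum_congr rfl fun i _ => ?_
    rw [← Finset.sum_sub_distrib, Finset.mul_sum, Finset.mul_sum, ← Finset.sum_add_distrib]
    refine Finset.sum_congr rfl fun j _ => ?_
    rw [nrm_scl e α β _ he]
    have := nrm_dec' e (Y i j) he
    rw [this]; ring
  rw [h2, h3, norm_mul, norm_mul, mul_pow, mul_pow, Complex.norm_real, Real.norm_eq_abs, sq_abs, Complex.norm_real,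
    Real.norm_eq_abs, sq_abs, hκ2, inv_pow] at h1
  have h4 : (ρ ^ 2)⁻¹ * (τ ^ (n - 1) * ‖fdet (Φ.curryLeft e) Y‖ ^ 2 * (n : ℝ) ^ n) ≤
      ((1 + (n - 1) * τ) / n * ∑ i, ∑ j, ‖(inner ℂ e (Y i j) : ℂ)‖ ^ 2 +
        (1 + (n + 1) * (n - 1) * τ) / n ^ 2 * (nsq Y - ∑ i, ∑ j, ‖(inner ℂ e (Y i j) : ℂ)‖ ^ 2)) ^ n := by
    linarith
  rwa [inv_mul_le_iff₀ (by positivity)] at h4

/-- if the matrix has all entries on the line of `e` -/
theorem fdet_line {n : ℕ} (Φ : MultilinearMap ℂ (fun _ : Fin n => V) ℂ) (U : Matrix (Fin n) (Fin n) ℂ) (e : V) :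
    fdet Φ (fun i j => U i j • e) = U.det * Φ (fun _ => e) := by
  unfold fdet
  rw [Matrix.det_apply', Finset.sum_mul, ← Equiv.sum_comp (Equiv.inv (Equiv.Perm (Fin n)))]
  refine Finset.sum_congr rfl fun σ _ => ?_
  rw [Φ.map_smul_univ (fun i => U i ((Equiv.inv (Equiv.Perm (Fin n))) σ i)) (fun _ => e), smul_eq_mul]
  have h1 : ∏ i, U i ((Equiv.inv (Equiv.Perm (Fin n))) σ i) = ∏ i, U (σ i) i := by
    rw [← Equiv.prod_comp σ]
    refine Finset.prod_congr rfl fun i _ => ?_
    simp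
  rw [h1, Equiv.inv_apply, Equiv.Perm.sign_inv]
  ring

/-- the case `t = 1` -/
theorem eq_case_one (hO : ST_ORT) [FiniteDimensional ℂ V] {n : ℕ}
    {Φ : MultilinearMap ℂ (fun _ : Fin n => V) ℂ} (hΦ : SymF Φ)
    {X : Fin n → Fin n → V} (hX : IsMax Φ X) (h1 : ‖fdet Φ X‖ = 1) (e : V) (he : ‖e‖ = 1)
    (h : ∀ i j, X i j = (inner ℂ e (X i j) : ℂ) • e) :
    ∃ U ∈ Matrix.unitaryGroup (Fin n) ℂ, ∃ e : V, ‖e‖ = 1 ∧ ‖Φ (fun _ => e)‖ = 1 ∧ ∀ i j, X i j = U i j • e := by
  obtain ⟨ho1, ho2, ho3⟩ := hO V n Φ X hΦ hX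
  set U : Matrix (Fin n) (Fin n) ℂ := fun i j => inner ℂ e (X i j) with hU
  have hU1 : U ∈ Matrix.unitaryGroup (Fin n) ℂ := by
    rw [Matrix.mem_unitaryGroup_iff]
    ext i k
    rw [Matrix.mul_apply, Matrix.one_apply]
    have h2 := ho1 k i
    have h3 : ∀ j, (inner ℂ (X k j) (X i j) : ℂ) = U i j * star U j k := by
      intro j
      rw [Matrix.star_apply, RCLike.star_def]
      conv_lhs => rw [h k j, h i j]
      rw [inner_smul_left, inner_smul_right, inner_self_eq_norm_sq_to_K, he]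
      simp [hU]
      ring
    rw [← Finset.sum_congr rfl fun j _ => h3 j, h2]
    by_cases hik : k = i
    · rw [if_pos hik, if_pos hik.symm]
    · rw [if_neg hik, if_neg (Ne.symm hik)]
  refine ⟨U, hU1, e, he, ?_, fun i j => h i j⟩
  have h2 : X = fun i j => U i j • e := by funext i j; exact h i j
  rw [h2, fdet_line, norm_mul, CStarRing.norm_of_mem_unitary (Matrix.det_of_mem_unitary hU1), one_mul] at h1
  exact h1

theorem pv_four {n : ℕ} (X : Fin n → Fin n → V) (i k j l : Fin n) (α β γ δ : ℂ) :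
    pvM X (Pi.single i α + Pi.single k β) (Pi.single j γ + Pi.single l δ) =
      (α * γ) • X i j + (α * δ) • X i l + (β * γ) • X k j + (β * δ) • X k l := by
  unfold pvM
  have h1 : ∀ (x y : Fin n), (((Pi.single i α + Pi.single k β : Fin n → ℂ) x) *
      ((Pi.single j γ + Pi.single l δ : Fin n → ℂ) y)) • X x y =
      (if x = i then (if y = j then (α * γ) • X x y else 0) else 0) +
      (if x = i then (if y = l then (α * δ) • X x y else 0) else 0) +
      (if x = k then (if y = j then (β * γ) • X x y else 0) else 0) +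
      (if x = k then (if y = l then (β * δ) • X x y else 0) else 0) := by
    intro x y
    simp only [Pi.add_apply, Pi.single_apply]
    split_ifs <;> simp only [add_zero, zero_add, zero_smul, mul_zero, zero_mul, add_mul, mul_add, add_smul] <;> abel
  rw [Finset.sum_congr rfl fun x _ => Finset.sum_congr rfl fun y _ => h1 x y]
  simp only [Finset.sum_add_distrib]
  have h2 : ∀ (i j : Fin n) (c : ℂ), ∑ x, ∑ y, (if x = i then (if y = j then c • X x y else 0) else 0) = c • X i j := by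
    intro i j c
    rw [Finset.sum_eq_single i, Finset.sum_eq_single j]
    · simp
    · intro y _ hy; simp [hy]
    · simp
    · intro x _ hx; simp [hx]
    · simp
  rw [h2, h2, h2, h2]

theorem sq_two {n : ℕ} (i k : Fin n) (h : i ≠ k) (α β : ℂ) :
    ∑ m, ‖(Pi.single i α + Pi.single k β : Fin n → ℂ) m‖ ^ 2 = ‖α‖ ^ 2 + ‖β‖ ^ 2 := by
  have h1 : ∀ m, ‖(Pi.single i α + Pi.single k β : Fin n → ℂ) m‖ ^ 2 =
      (if m = i then ‖α‖ ^ 2 else 0) + (if m = k then ‖β‖ ^ 2 else 0) := by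
    intro m
    simp only [Pi.add_apply, Pi.single_apply]
    by_cases h1 : m = i <;> by_cases h2 : m = k
    · exact absurd (h1.symm.trans h2) h
    · simp [h1, h]
    · simp [h1, h2, Ne.symm h]
    · simp [h1, h2]
  rw [Finset.sum_congr rfl fun m _ => h1 m, Finset.sum_add_distrib]
  simp

/-- the case `t = 1 / n` : a matrix all of whose entries in unit directions have norm at most `1 / √n` -/
theorem eq_case_two {n : ℕ} (hn : 0 < n) {X : Fin n → Fin n → V} (h0 : nsq X = n)
    (h : ∀ a b : Fin n → ℂ, ∑ i, ‖a i‖ ^ 2 = 1 → ∑ i, ‖b i‖ ^ 2 = 1 → ‖pvM X a b‖ ^ 2 ≤ 1 / n) :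
    ∀ i j k l, inner ℂ (X i j) (X k l) = if i = k ∧ j = l then 1 / (n : ℂ) else 0 := by
  have hn0 : (0 : ℝ) < n := by exact_mod_cast hn
  have hh : ∀ a b : Fin n → ℂ, ‖pvM X a b‖ ^ 2 ≤ 1 / n * (∑ i, ‖a i‖ ^ 2) * ∑ i, ‖b i‖ ^ 2 := by
    intro a b
    have h1 := pv_hom X (Real.sqrt (1 / n)) (fun a b ha hb => Real.le_sqrt_of_sq_le (h a b ha hb)) a b
    rwa [Real.sq_sqrt (by positivity)] at h1
  have hle : ∀ i j, ‖X i j‖ ^ 2 ≤ 1 / n := by
    intro i j
    have h1 := h (Pi.single i 1) (Pi.single j 1)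
      (by rw [Finset.sum_eq_single i]; simp; intro k _ hk; simp [hk]; simp)
      (by rw [Finset.sum_eq_single j]; simp; intro k _ hk; simp [hk]; simp)
    have h2 := pv_four X i i j j 1 0 1 0
    simp only [Pi.single_zero, add_zero, mul_one, one_smul, mul_zero, zero_smul] at h2
    rwa [h2] at h1
  have hent : ∀ i j, ‖X i j‖ ^ 2 = 1 / n := by
    have h1 : ∑ i, ∑ j, (1 / (n : ℝ) - ‖X i j‖ ^ 2) = 0 := by
      simp only [Finset.sum_sub_distrib, Finset.sum_const, Finset.card_univ, Fintype.card_fin, nsmul_eq_mul]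
      unfold nsq at h0
      rw [h0]; field_simp; ring
    intro i j
    have h2 : ∑ j, (1 / (n : ℝ) - ‖X i j‖ ^ 2) = 0 :=
      (Finset.sum_eq_zero_iff_of_nonneg (fun i _ => Finset.sum_nonneg fun j _ => sub_nonneg.2 (hle i j))).1 h1 i
        (Finset.mem_univ _)
    have h3 : 1 / (n : ℝ) - ‖X i j‖ ^ 2 = 0 :=
      (Finset.sum_eq_zero_iff_of_nonneg (fun j _ => sub_nonneg.2 (hle i j))).1 h2 j (Finset.mem_univ _)
    linarith
  intro i j k l
  by_cases hik : i = k
  · by_cases hjl : j = l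
    · subst hik hjl
      rw [if_pos ⟨rfl, rfl⟩, inner_self_eq_norm_sq_to_K]
      have h1 := hent i j
      have h2 : ((‖X i j‖ ^ 2 : ℝ) : ℂ) = ((1 / (n : ℝ) : ℝ) : ℂ) := by rw [h1]
      push_cast at h2
      exact h2
    · rw [if_neg (fun h => hjl h.2)]
      subst hik
      refine pv_first _ _ fun t => ?_
      have h1 := hh (Pi.single i 1) (Pi.single j 1 + Pi.single l t)
      rw [sq_two j l hjl] at h1
      have h2 := pv_four X i i j l 1 0 1 t
      simp only [Pi.single_zero, add_zero, mul_one, one_smul, mul_zero, zero_smul, one_mul, zero_mul] at h2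
      have h3 : ∑ m, ‖(Pi.single i 1 : Fin n → ℂ) m‖ ^ 2 = 1 := by
        rw [Finset.sum_eq_single i]
        · simp
        · intro k _ hk; simp [hk]
        · simp
      rw [h2, h3] at h1
      rw [hent i j]
      simpa using h1
  · by_cases hjl : j = l
    · rw [if_neg (fun h => hik h.1)]
      subst hjl
      refine pv_first _ _ fun t => ?_
      have h1 := hh (Pi.single i 1 + Pi.single k t) (Pi.single j 1)
      rw [sq_two i k hik] at h1
      have h2 := pv_four X i k j j 1 t 1 0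
      simp only [Pi.single_zero, add_zero, mul_one, one_smul, mul_zero, zero_smul, one_mul, zero_mul] at h2
      have h3 : ∑ m, ‖(Pi.single j 1 : Fin n → ℂ) m‖ ^ 2 = 1 := by
        rw [Finset.sum_eq_single j]
        · simp
        · intro k _ hk; simp [hk]
        · simp
      rw [h2, h3] at h1
      rw [hent i j]
      simpa using h1
    · rw [if_neg (fun h => hik h.1)]
      refine pv_first _ _ fun t => ?_
      have key : ∀ s δ : ℂ, ‖s‖ = ‖t‖ → ‖δ‖ = 1 →
          ‖X i j + s • X k j + δ • X i l + (s * δ) • X k l‖ ^ 2 ≤ 1 / n * (1 + ‖t‖ ^ 2) * 2 := by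
        intro s δ hs hδ
        have h1 := hh (Pi.single i 1 + Pi.single k s) (Pi.single j 1 + Pi.single l δ)
        rw [sq_two i k hik, sq_two j l hjl, pv_four, hs, hδ] at h1
        simp only [mul_one, one_mul, one_smul, norm_one, one_pow] at h1
        have h2 : X i j + s • X k j + δ • X i l + (s * δ) • X k l =
          X i j + δ • X i l + s • X k j + (s * δ) • X k l := by abel
        rw [h2]
        linarith
      have k1 := key t 1 rfl (by simp)
      have k2 := key (-t) (-1) (by simp) (by simp)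
      have k3 := key (Complex.I * t) (-Complex.I) (by simp) (by simp)
      have k4 := key (-(Complex.I * t)) (Complex.I) (by simp) (by simp)
      have hI : Complex.I * t * -Complex.I = t := by
        have := Complex.I_mul_I
        linear_combination (-t) * this
      have hI' : -(Complex.I * t) * Complex.I = t := by
        have := Complex.I_mul_I
        linear_combination (-t) * this
      have h5 := pv_avg (X i j) (t • X k j) (X i l) (t • X k l) (1 / n * (1 + ‖t‖ ^ 2) * 2)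
        (by simpa using k1)
        (by simpa using k2)
        (by
          rw [hI] at k3
          rw [neg_smul, mul_smul] at k3
          exact k3)
        (by
          rw [hI'] at k4
          rw [neg_smul, mul_smul] at k4
          exact k4)
      rw [norm_smul, mul_pow, hent, hent] at h5
      rw [hent i j]
      linarith


theorem line_mix {n : ℕ} (A B : Matrix (Fin n) (Fin n) ℂ) (X : Fin n → Fin n → V) (e : V) (he : ‖e‖ = 1)
    (h : ∀ i j, X i j = (inner ℂ e (X i j) : ℂ) • e) (i j : Fin n) :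
    mix A X B i j = (inner ℂ e (mix A X B i j) : ℂ) • e := by
  have h1 : ∃ c : ℂ, mix A X B i j = c • e := by
    refine ⟨∑ k, ∑ l, (A i k * B l j) * inner ℂ e (X k l), ?_⟩
    unfold mix
    rw [Finset.sum_smul]
    refine Finset.sum_congr rfl fun k _ => ?_
    rw [Finset.sum_smul]
    refine Finset.sum_congr rfl fun l _ => ?_
    conv_lhs => rw [h k l]
    rw [smul_smul]
  obtain ⟨c, hc⟩ := h1
  rw [hc, inner_smul_right, inner_self_eq_norm_sq_to_K, he]
  simp

end

/-- EQ -/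
theorem st_EQ (hL : ST_LEM) (hD : ST_DET) (hE : ST_EXP) (hO : ST_ORT) (hP : ST_PIV) (hAD : ST_AD) : ST_EQ := by
  intro V _ _ _ n Φ hn hΦ hU X h0 h1
  obtain ⟨m, rfl⟩ : ∃ m, n = m + 1 := ⟨n - 1, by omega⟩
  have hm : 2 ≤ m := by omega
  have hm0 : (0 : ℝ) < m := by exact_mod_cast (by omega : 0 < m)
  have hm2 : (2 : ℝ) ≤ m := by exact_mod_cast hm
  have hm1 : (0 : ℝ) < m - 1 := by linarith
  have hX : IsMax Φ X := by
    refine ⟨h0, fun h => by rw [h, norm_zero] at h1; exact zero_ne_one h1, fun Y hY => ?_⟩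
    have h2 := hAD V (m + 1) Φ hΦ hU Y
    rw [hY] at h2
    rw [h1]
    have h3 : (0 : ℝ) < (((m + 1 : ℕ) : ℝ)) ^ (m + 1) := by positivity
    have h4 : ‖fdet Φ Y‖ ^ 2 ≤ 1 := le_of_mul_le_mul_right (by linarith) h3
    exact le_of_sq_le_sq (by simpa using h4) zero_le_one
  have IH : ∀ Ψ : MultilinearMap ℂ (fun _ : Fin m => V) ℂ, SymF Ψ → UnitF Ψ → ∀ Y : Fin m → Fin m → V,
      ‖fdet Ψ Y‖ ^ 2 * (m : ℝ) ^ m ≤ nsq Y ^ m := fun Ψ hS hU Y => hAD V m Ψ hS hU Y
  obtain ⟨A, hA, B, hB, e, μ, hX', hdet, he, hμ0, hX00, hμ1, hμ2, hmax, hrow, hcol, hns, hS, hM⟩ :=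
    pivot_facts hE hO hP hD hΦ hX
  rw [h1, one_mul] at hM
  have hA1 : star A * A = 1 := (Matrix.mem_unitaryGroup_iff').1 hA
  have hA2 : A * star A = 1 := (Matrix.mem_unitaryGroup_iff).1 hA
  have hB1 : star B * B = 1 := (Matrix.mem_unitaryGroup_iff').1 hB
  have hB2 : B * star B = 1 := (Matrix.mem_unitaryGroup_iff).1 hB
  set t := μ ^ 2 with ht
  have ht0 : 0 < t := by positivity
  set S := ∑ i, ∑ j, ‖(inner ℂ e (minor (mix A X B) i j) : ℂ)‖ ^ 2 with hSd
  have hS0 : 0 ≤ S := Finset.sum_nonneg fun _ _ => Finset.sum_nonneg fun _ _ => by positivity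
  have hdiff : nsq (minor (mix A X B)) - S =
      ∑ i, ∑ j, ‖minor (mix A X B) i j - (inner ℂ e (minor (mix A X B) i j) : ℂ) • e‖ ^ 2 := by
    rw [hSd]
    unfold nsq
    rw [← Finset.sum_sub_distrib]
    refine Finset.sum_congr rfl fun i _ => ?_
    rw [← Finset.sum_sub_distrib]
    refine Finset.sum_congr rfl fun j _ => ?_
    rw [nrm_dec' e (minor (mix A X B) i j) he]; ring
  have hSle : S ≤ m - 1 + t := by
    have : 0 ≤ ∑ i, ∑ j, ‖minor (mix A X B) i j - (inner ℂ e (minor (mix A X B) i j) : ℂ) • e‖ ^ 2 :=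
      Finset.sum_nonneg fun _ _ => Finset.sum_nonneg fun _ _ => by positivity
    rw [← hdiff, hns] at this
    linarith
  by_cases ht1 : t = 1
  · -- one direction
    left
    have hμ : μ = 1 := by nlinarith
    rw [ht1] at hns hrow hcol hSle
    have hSm : S ≤ m := by linarith
    set a : ℝ := ((m - 1) * S + m) / m ^ 2 with ha
    set b : ℝ := (m * (m + 1) - S) / m ^ 2 with hb
    have ha0 : 0 < a := by positivity
    have hb0 : 0 < b := by
      have : 0 < m * (m + 1) - S := by nlinarith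
      positivity
    have hab : (a + (m - 1) * b) / m = 1 := by
      rw [ha, hb]; field_simp; ring
    have h2 := minor_bd hL (by omega) IH hΦ hU e he (a / b) (by positivity) (minor (mix A X B))
    rw [hns, ← hM, ← hSd, ← ht, ht1] at h2
    have h3 : (1 + ((m : ℝ) - 1) * (a / b)) / m * S + (1 + (m + 1) * (m - 1) * (a / b)) / m ^ 2 *
        ((m : ℝ) - 1 + 1 - S) = a + (m - 1) * (a / b) * b := by
      have : ∀ x : ℝ, (1 + ((m : ℝ) - 1) * x) / m * S + (1 + (m + 1) * (m - 1) * x) / m ^ 2 *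
        ((m : ℝ) - 1 + 1 - S) = a + (m - 1) * x * b := by
        intro x
        rw [ha, hb]; field_simp; ring
      exact this _
    have h4 : a + (m - 1) * (a / b) * b = m * a := by field_simp; ring
    rw [h3, h4, mul_one, mul_pow, mul_comm ((m : ℝ) ^ m)] at h2
    have h5 : (a / b) ^ (m - 1) ≤ a ^ m := le_of_mul_le_mul_right h2 (by positivity)
    have h6 : 1 ≤ a * b ^ (m - 1) := by
      have h7 : a ^ m = a ^ (m - 1) * a := by rw [← pow_succ]; congr 1; omega
      rw [div_pow, div_le_iff₀ (by positivity), h7] at h5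
      have h8 : a ^ (m - 1) * 1 ≤ a ^ (m - 1) * (a * b ^ (m - 1)) := by linarith
      exact le_of_mul_le_mul_left h8 (by positivity)
    have hab' : a = b := by
      by_contra hne
      have := amgm_strict m hm a b ha0.le hb0 hne
      rw [hab, one_pow] at this
      linarith
    have hSeq : S = m := by
      rw [ha, hb, div_left_inj' (by positivity)] at hab'
      have : m * S = m * m := by linarith
      exact mul_left_cancel₀ hm0.ne' this
    have hz : ∀ i j : Fin m, minor (mix A X B) i j - (inner ℂ e (minor (mix A X B) i j) : ℂ) • e = 0 := by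
      intro i j
      have h7 : ∑ i, ∑ j, ‖minor (mix A X B) i j - (inner ℂ e (minor (mix A X B) i j) : ℂ) • e‖ ^ 2 = 0 := by
        rw [← hdiff, hns, hSeq]; ring
      have h8 := (Finset.sum_eq_zero_iff_of_nonneg (fun i _ => Finset.sum_nonneg fun j _ => by positivity)).1 h7 i
        (Finset.mem_univ _)
      have h9 := (Finset.sum_eq_zero_iff_of_nonneg (fun j _ => by positivity)).1 h8 j (Finset.mem_univ _)
      exact norm_eq_zero.1 (pow_eq_zero_iff (two_ne_zero) |>.1 h9)
    have hrow' : ∀ j : Fin m, mix A X B 0 j.succ = 0 := by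
      intro j
      rw [sub_self] at hrow
      have h9 := (Finset.sum_eq_zero_iff_of_nonneg (fun j _ => by positivity)).1 hrow j (Finset.mem_univ _)
      exact norm_eq_zero.1 (pow_eq_zero_iff (two_ne_zero) |>.1 h9)
    have hcol' : ∀ i : Fin m, mix A X B i.succ 0 = 0 := by
      intro i
      rw [sub_self] at hcol
      have h9 := (Finset.sum_eq_zero_iff_of_nonneg (fun j _ => by positivity)).1 hcol i (Finset.mem_univ _)
      exact norm_eq_zero.1 (pow_eq_zero_iff (two_ne_zero) |>.1 h9)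
    have hline : ∀ i j, mix A X B i j = (inner ℂ e (mix A X B i j) : ℂ) • e := by
      intro i j
      refine Fin.cases ?_ (fun i => ?_) i
      · refine Fin.cases ?_ (fun j => ?_) j
        · rw [hX00, inner_smul_right, inner_self_eq_norm_sq_to_K, he]; simp
        · rw [hrow' j, inner_zero_right, zero_smul]
      · refine Fin.cases ?_ (fun j => ?_) j
        · rw [hcol' i, inner_zero_right, zero_smul]
        · exact sub_eq_zero.1 (hz i j)
    have hback : X = mix (star A) (mix A X B) (star B) := by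
      rw [mix_mix, hA1, hB2, mix_one_one]
    refine eq_case_one hO hΦ hX h1 e he fun i j => ?_
    rw [hback]
    exact line_mix _ _ _ e he hline i j
  · right
    by_cases ht2 : (m + 1) * t = 1
    · have h3 := eq_case_two (n := m + 1) (by omega) h0 (fun a b ha hb => by
        have h4 := hmax ((star A.transpose).mulVec a) ((star B).mulVec b)
          (by
            rw [pv_norm_mulVec _ (Unitary.star_mem (pv_transpose A hA))]; exact ha)
          (by
            rw [pv_norm_mulVec _ (Unitary.star_mem hB)]; exact hb)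
        have h5 := pv_mix A B X ((star A.transpose).mulVec a) ((star B).mulVec b)
        have hAt : A.transpose * star A.transpose = 1 := (Matrix.mem_unitaryGroup_iff).1 (pv_transpose A hA)
        rw [Matrix.mulVec_mulVec, Matrix.mulVec_mulVec, hAt, hB2, Matrix.one_mulVec, Matrix.one_mulVec] at h5
        rw [← h5]
        have h6 : ‖pvM (mix A X B) ((star A.transpose).mulVec a) ((star B).mulVec b)‖ ≤ μ := h4
        have h7 : t = 1 / ((m + 1 : ℕ) : ℝ) := by
          push_cast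
          rw [eq_div_iff (by positivity)]; linarith
        rw [← h7, ht]
        exact pow_le_pow_left₀ (norm_nonneg _) h6 2)
      exact h3
    · exfalso
      obtain ⟨ρ, hρ0, hρ1, hρ⟩ := minor_strict hL hm IH hΦ hU e he t ht0 ht1 ht2
      have h2 := hρ (minor (mix A X B))
      rw [hns, ← hM, ← hSd, ← ht] at h2
      have h3 : (1 + ((m : ℝ) - 1) * t) / m * S + (1 + (m + 1) * (m - 1) * t) / m ^ 2 * ((m : ℝ) - 1 + t - S) =
          t * m - (m - 1) * (1 - t) / m ^ 2 * ((m + 1) * t - 1 - S) := by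
        field_simp; ring
      have h4 : (1 + ((m : ℝ) - 1) * t) / m * S + (1 + (m + 1) * (m - 1) * t) / m ^ 2 * ((m : ℝ) - 1 + t - S) ≤
          t * m := by
        rw [h3]
        have h4 : 0 ≤ (m - 1) * (1 - t) / (m : ℝ) ^ 2 * ((m + 1) * t - 1 - S) := by
          have h5 : 0 ≤ 1 - t := by linarith
          have h6 : 0 ≤ (m + 1) * t - 1 - S := by linarith
          positivity
        linarith
      have h5 : (0 : ℝ) ≤ (1 + ((m : ℝ) - 1) * t) / m * S +
          (1 + (m + 1) * (m - 1) * t) / m ^ 2 * ((m : ℝ) - 1 + t - S) := by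
        have h5 : 0 ≤ (m : ℝ) - 1 + t - S := by linarith
        positivity
      have h6 := pow_le_pow_left₀ h5 h4 m
      have h7 : t ^ (m - 1) * t = t ^ m := by rw [← pow_succ]; congr 1; omega
      rw [h7] at h2
      rw [mul_pow] at h6
      have h8 : t ^ m * (m : ℝ) ^ m ≤ ρ ^ 2 * (t ^ m * (m : ℝ) ^ m) := h2.trans (by gcongr)
      have h9 : 0 < t ^ m * (m : ℝ) ^ m := by positivity
      have h10 : (t ^ m * (m : ℝ) ^ m) * 1 ≤ (t ^ m * (m : ℝ) ^ m) * ρ ^ 2 := by
        rw [mul_one, mul_comm _ (ρ ^ 2)]; exact h8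
      have h11 : 1 ≤ ρ ^ 2 := le_of_mul_le_mul_left h10 h9
      have h12 : ρ ^ 2 < 1 := by
        rw [sq]; exact mul_lt_one_of_nonneg_of_lt_one_left hρ0.le hρ1 hρ1.le
      exact absurd h11 (not_le.2 h12)

end HD
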