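import Pool.Agent.Helper87.HD.Stmts

set_option autoImplicit false

open Finset

namespace HD

section

variable {V : Type} [NormedAddCommGroup V] [InnerProductSpace ℂ V] {n : ℕ}

theorem mix_one_right (A : Matrix (Fin n) (Fin n) ℂ) (X : Fin n → Fin n → V) (i j : Fin n) :
    mix A X 1 i j = ∑ k, A i k • X k j := by
  unfold mix
  refine Finset.sum_congr rfl fun k _ => ?_
  rw [Finset.sum_eq_single j]
  · simp
  · intro l _ hl
    rw [Matrix.one_apply_ne hl]; simp
  · intro h; exact absurd (Finset.mem_univ _) h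

theorem mix_smul (c : ℂ) (A : Matrix (Fin n) (Fin n) ℂ) (X : Fin n → Fin n → V) (B : Matrix (Fin n) (Fin n) ℂ)
    (i j : Fin n) : mix (c • A) X B i j = c • mix A X B i j := by
  unfold mix
  rw [Finset.smul_sum]
  refine Finset.sum_congr rfl fun k _ => ?_
  rw [Finset.smul_sum]
  refine Finset.sum_congr rfl fun l _ => ?_
  rw [smul_smul, Matrix.smul_apply, smul_eq_mul, mul_assoc]

theorem nsq_smul (c : ℂ) (X : Fin n → Fin n → V) : nsq (fun i j => c • X i j) = ‖c‖ ^ 2 * nsq X := by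
  unfold nsq
  rw [Finset.mul_sum]
  refine Finset.sum_congr rfl fun i _ => ?_
  rw [Finset.mul_sum]
  refine Finset.sum_congr rfl fun j _ => ?_
  rw [norm_smul, mul_pow]

omit [InnerProductSpace ℂ V] in
theorem nsq_nonneg (X : Fin n → Fin n → V) : 0 ≤ nsq X :=
  Finset.sum_nonneg fun _ _ => Finset.sum_nonneg fun _ _ => by positivity

omit [InnerProductSpace ℂ V] in
theorem nsq_eq_zero {X : Fin n → Fin n → V} (h : nsq X = 0) (i j : Fin n) : X i j = 0 := by
  have h1 : ∑ j, ‖X i j‖ ^ 2 = 0 :=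
    (Finset.sum_eq_zero_iff_of_nonneg (fun _ _ => Finset.sum_nonneg fun _ _ => by positivity)).1 h i (Finset.mem_univ _)
  have h2 : ‖X i j‖ ^ 2 = 0 :=
    (Finset.sum_eq_zero_iff_of_nonneg (fun _ _ => by positivity)).1 h1 j (Finset.mem_univ _)
  have h3 : ‖X i j‖ = 0 := by
    rcases pow_eq_zero_iff (two_ne_zero) |>.1 h2 with h
    exact h
  exact norm_eq_zero.1 h3

theorem fdet_of_zero (Φ : MultilinearMap ℂ (fun _ : Fin n => V) ℂ) (X : Fin n → Fin n → V) (i : Fin n)
    (h : ∀ j, X i j = 0) : fdet Φ X = 0 := by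
  unfold fdet
  refine Finset.sum_eq_zero fun σ _ => ?_
  rw [Φ.map_coord_zero (m := fun i => X i (σ i)) i (h _), mul_zero]

/-- mixing with determinant of modulus one does not lower the norm of a maximiser -/
theorem IsMax.le_nsq (hD : ST_DET) [FiniteDimensional ℂ V] {Φ : MultilinearMap ℂ (fun _ : Fin n => V) ℂ}
    (hΦ : SymF Φ) {X : Fin n → Fin n → V} (hX : IsMax Φ X) (A : Matrix (Fin n) (Fin n) ℂ) (hA : ‖A.det‖ = 1)
    (hn : 0 < n) : (n : ℝ) ≤ nsq (mix A X 1) := by
  by_contra hlt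
  push Not at hlt
  set m := nsq (mix A X 1) with hm
  have hm0 : 0 < m := by
    rcases (nsq_nonneg (mix A X 1)).lt_or_eq with h | h
    · exact h
    · exfalso
      have h1 : fdet Φ (mix A X 1) = 0 := fdet_of_zero Φ _ ⟨0, hn⟩ (fun j => nsq_eq_zero h.symm _ _)
      rw [(hD V n Φ hΦ).1 A 1 X] at h1
      have h2 : ‖A.det * (1 : Matrix (Fin n) (Fin n) ℂ).det * fdet Φ X‖ = 0 := by rw [h1, norm_zero]
      rw [norm_mul, norm_mul, hA, Matrix.det_one, norm_one, one_mul, one_mul, norm_eq_zero] at h2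
      exact hX.2.1 h2
  have hn' : (0 : ℝ) < n := by exact_mod_cast hn
  set c : ℝ := Real.sqrt (n / m) with hc
  have hc2 : c ^ 2 = n / m := Real.sq_sqrt (by positivity)
  have hc0 : 0 < c := Real.sqrt_pos.2 (by positivity)
  have hc1 : 1 < c := by
    have h1 : (1 : ℝ) < n / m := by rw [lt_div_iff₀ hm0]; linarith
    nlinarith
  have h1 : nsq (mix ((c : ℂ) • A) X 1) = n := by
    have h2 : mix ((c : ℂ) • A) X 1 = fun i j => (c : ℂ) • mix A X 1 i j := by
      funext i j; exact mix_smul _ _ _ _ _ _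
    rw [h2, nsq_smul, Complex.norm_real, Real.norm_eq_abs, sq_abs, hc2, ← hm]
    field_simp
  have h2 := hX.2.2 _ h1
  rw [(hD V n Φ hΦ).1 ((c : ℂ) • A) 1 X, Matrix.det_smul, Matrix.det_one, mul_one, Fintype.card_fin, norm_mul,
    norm_mul, hA, mul_one, norm_pow, Complex.norm_real, Real.norm_eq_abs, abs_of_pos hc0] at h2
  have h3 : 1 < c ^ n := one_lt_pow₀ hc1 hn.ne'
  have h4 : 0 < ‖fdet Φ X‖ := norm_pos_iff.2 hX.2.1
  nlinarith

omit [InnerProductSpace ℂ V] in
theorem nsq_update (X : Fin n → Fin n → V) (i : Fin n) (R : Fin n → V) :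
    nsq (Function.update X i R) = nsq X - ∑ j, ‖X i j‖ ^ 2 + ∑ j, ‖R j‖ ^ 2 := by
  unfold nsq
  rw [← Finset.add_sum_erase _ _ (Finset.mem_univ i), ← Finset.add_sum_erase _ (fun i => ∑ j, ‖X i j‖ ^ 2) (Finset.mem_univ i)]
  rw [Function.update_self]
  have h : ∑ x ∈ univ.erase i, ∑ j, ‖Function.update X i R x j‖ ^ 2 = ∑ x ∈ univ.erase i, ∑ j, ‖X x j‖ ^ 2 :=
    Finset.sum_congr rfl fun k hk => by rw [Function.update_of_ne (Finset.ne_of_mem_erase hk)]
  rw [h]; ring

omit [InnerProductSpace ℂ V] in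
theorem nsq_transpose (X : Fin n → Fin n → V) : nsq (fun i j => X j i) = nsq X := by
  unfold nsq; rw [Finset.sum_comm]

theorem IsMax.transpose (hD : ST_DET) [FiniteDimensional ℂ V] {Φ : MultilinearMap ℂ (fun _ : Fin n => V) ℂ}
    (hΦ : SymF Φ) {X : Fin n → Fin n → V} (hX : IsMax Φ X) : IsMax Φ (fun i j => X j i) := by
  refine ⟨by rw [nsq_transpose]; exact hX.1, by rw [(hD V n Φ hΦ).2]; exact hX.2.1, fun Y hY => ?_⟩
  rw [(hD V n Φ hΦ).2 X]; exact hX.2.2 Y hY

theorem mix_transvection (X : Fin n → Fin n → V) (i k : Fin n) (hik : i ≠ k) (c : ℂ) :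
    mix (Matrix.transvection i k c) X 1 = Function.update X i (fun j => X i j + c • X k j) := by
  funext a b
  rw [mix_one_right]
  by_cases ha : a = i
  · subst ha
    rw [Function.update_self, ← Finset.add_sum_erase _ _ (Finset.mem_univ a),
      ← Finset.add_sum_erase _ _ (Finset.mem_erase.2 ⟨hik.symm, Finset.mem_univ k⟩)]
    rw [Finset.sum_eq_zero]
    · simp [Matrix.transvection, hik, hik.symm]
    · intro l hl
      have h1 : l ≠ k := Finset.ne_of_mem_erase hl
      have h2 : l ≠ a := Finset.ne_of_mem_erase (Finset.mem_of_mem_erase hl)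
      simp [Matrix.transvection, h1.symm, h2.symm]
  · rw [Function.update_of_ne ha, Finset.sum_eq_single a]
    · simp [Matrix.transvection, Ne.symm ha]
    · intro l _ hl
      simp [Matrix.transvection, Ne.symm ha, Ne.symm hl]
    · intro h; exact absurd (Finset.mem_univ _) h

theorem mix_diagonal (X : Fin n → Fin n → V) (w : Fin n → ℂ) (i j : Fin n) :
    mix (Matrix.diagonal w) X 1 i j = w i • X i j := by
  rw [mix_one_right, Finset.sum_eq_single i]
  · simp
  · intro l _ hl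
    rw [Matrix.diagonal_apply_ne _ (Ne.symm hl), zero_smul]
  · intro h; exact absurd (Finset.mem_univ _) h

theorem IsMax.row_eq (hD : ST_DET) [FiniteDimensional ℂ V] {Φ : MultilinearMap ℂ (fun _ : Fin n => V) ℂ}
    (hΦ : SymF Φ) {X : Fin n → Fin n → V} (hX : IsMax Φ X) (i k : Fin n) :
    ∑ j, ‖X i j‖ ^ 2 = ∑ j, ‖X k j‖ ^ 2 := by
  by_cases hik : i = k
  · rw [hik]
  have hn : 0 < n := lt_of_le_of_lt (Nat.zero_le _) i.2
  set a := ∑ j, ‖X i j‖ ^ 2 with ha
  set b := ∑ j, ‖X k j‖ ^ 2 with hb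
  have ha0 : 0 ≤ a := Finset.sum_nonneg fun _ _ => by positivity
  have hb0 : 0 ≤ b := Finset.sum_nonneg fun _ _ => by positivity
  have key : ∀ l : ℝ, 0 < l → a + b ≤ l ^ 2 * a + (l ^ 2)⁻¹ * b := by
    intro l hl
    set w : Fin n → ℂ := Function.update (Function.update (fun _ => (1 : ℂ)) i (l : ℂ)) k ((l : ℂ)⁻¹) with hw
    have hl' : (l : ℂ) ≠ 0 := by exact_mod_cast hl.ne'
    have hwi : w i = l := by rw [hw, Function.update_of_ne hik, Function.update_self]
    have hwk : w k = (l : ℂ)⁻¹ := by rw [hw, Function.update_self]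
    have hwo : ∀ m, m ≠ i → m ≠ k → w m = 1 := by
      intro m h1 h2; rw [hw, Function.update_of_ne h2, Function.update_of_ne h1]
    have hdet : (Matrix.diagonal w).det = 1 := by
      rw [Matrix.det_diagonal, ← Finset.mul_prod_erase _ _ (Finset.mem_univ i),
        ← Finset.mul_prod_erase _ _ (Finset.mem_erase.2 ⟨Ne.symm hik, Finset.mem_univ k⟩), hwi, hwk,
        Finset.prod_eq_one, mul_one, mul_inv_cancel₀ hl']
      intro m hm
      exact hwo m (Finset.ne_of_mem_erase (Finset.mem_of_mem_erase hm)) (Finset.ne_of_mem_erase hm)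
    have h1 := hX.le_nsq hD hΦ (Matrix.diagonal w) (by rw [hdet, norm_one]) hn
    have h2 : ∀ Y : Fin n → Fin n → V, nsq Y = ∑ j, ‖Y i j‖ ^ 2 + (∑ j, ‖Y k j‖ ^ 2 +
        ∑ m ∈ (univ.erase i).erase k, ∑ j, ‖Y m j‖ ^ 2) := by
      intro Y
      unfold nsq
      rw [← Finset.add_sum_erase _ _ (Finset.mem_univ i),
        ← Finset.add_sum_erase _ _ (Finset.mem_erase.2 ⟨Ne.symm hik, Finset.mem_univ k⟩)]
    have h3 : ∑ m ∈ (univ.erase i).erase k, ∑ j, ‖mix (Matrix.diagonal w) X 1 m j‖ ^ 2 =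
        ∑ m ∈ (univ.erase i).erase k, ∑ j, ‖X m j‖ ^ 2 := by
      refine Finset.sum_congr rfl fun m hm => Finset.sum_congr rfl fun j _ => ?_
      rw [mix_diagonal, hwo m (Finset.ne_of_mem_erase (Finset.mem_of_mem_erase hm)) (Finset.ne_of_mem_erase hm), one_smul]
    have h4 : ∑ j, ‖mix (Matrix.diagonal w) X 1 i j‖ ^ 2 = l ^ 2 * a := by
      rw [ha, Finset.mul_sum]
      refine Finset.sum_congr rfl fun j _ => ?_
      rw [mix_diagonal, hwi, norm_smul, mul_pow, Complex.norm_real, Real.norm_eq_abs, sq_abs]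
    have h5 : ∑ j, ‖mix (Matrix.diagonal w) X 1 k j‖ ^ 2 = (l ^ 2)⁻¹ * b := by
      rw [hb, Finset.mul_sum]
      refine Finset.sum_congr rfl fun j _ => ?_
      rw [mix_diagonal, hwk, norm_smul, mul_pow, norm_inv, Complex.norm_real, Real.norm_eq_abs, inv_pow, sq_abs]
    have h6 := h2 X
    rw [hX.1] at h6
    rw [h2 (mix (Matrix.diagonal w) X 1), h3, h4, h5] at h1
    linarith
  rcases ha0.lt_or_eq with ha1 | ha1
  · rcases hb0.lt_or_eq with hb1 | hb1
    · have h1 := key (Real.sqrt (Real.sqrt (b / a))) (by positivity)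
      have h2 : Real.sqrt (Real.sqrt (b / a)) ^ 2 = Real.sqrt b / Real.sqrt a := by
        rw [Real.sq_sqrt (Real.sqrt_nonneg _), Real.sqrt_div hb0]
      rw [h2] at h1
      have h3 : 0 < Real.sqrt a := Real.sqrt_pos.2 ha1
      have h4 : 0 < Real.sqrt b := Real.sqrt_pos.2 hb1
      have h5 : Real.sqrt a ^ 2 = a := Real.sq_sqrt ha0
      have h6 : Real.sqrt b ^ 2 = b := Real.sq_sqrt hb0
      have h7 : Real.sqrt b / Real.sqrt a * a = Real.sqrt a * Real.sqrt b := by
        rw [div_mul_eq_mul_div, div_eq_iff h3.ne']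
        linear_combination (-(Real.sqrt b)) * h5
      have h8 : (Real.sqrt b / Real.sqrt a)⁻¹ * b = Real.sqrt a * Real.sqrt b := by
        rw [inv_div, div_mul_eq_mul_div, div_eq_iff h4.ne']
        linear_combination (-(Real.sqrt a)) * h6
      rw [h7, h8] at h1
      have h9 : (Real.sqrt a - Real.sqrt b) ^ 2 ≤ 0 := by nlinarith
      have h10 : Real.sqrt a - Real.sqrt b = 0 := by
        have := le_antisymm h9 (sq_nonneg _)
        exact pow_eq_zero_iff (two_ne_zero) |>.1 this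
      rw [← h5, ← h6, sub_eq_zero.1 h10]
    · have h1 := key (1 / 2) (by norm_num)
      rw [← hb1] at h1 ⊢
      nlinarith
  · have h1 := key 2 (by norm_num)
    rw [← ha1] at h1 ⊢
    nlinarith

theorem IsMax.row_one (hD : ST_DET) [FiniteDimensional ℂ V] {Φ : MultilinearMap ℂ (fun _ : Fin n => V) ℂ}
    (hΦ : SymF Φ) {X : Fin n → Fin n → V} (hX : IsMax Φ X) (i : Fin n) : ∑ j, ‖X i j‖ ^ 2 = 1 := by
  have hn : (0 : ℝ) < n := by exact_mod_cast lt_of_le_of_lt (Nat.zero_le _) i.2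
  have h1 : nsq X = n * ∑ j, ‖X i j‖ ^ 2 := by
    unfold nsq
    rw [Finset.sum_congr rfl fun k _ => hX.row_eq hD hΦ k i]
    simp
  rw [hX.1] at h1
  have h2 : (n : ℝ) * (∑ j, ‖X i j‖ ^ 2 - 1) = 0 := by linarith
  rcases mul_eq_zero.1 h2 with h | h
  · exact absurd h hn.ne'
  · linarith

theorem sum_norm_add (x y : Fin n → V) (c : ℂ) : ∑ j, ‖x j + c • y j‖ ^ 2 =
    ∑ j, ‖x j‖ ^ 2 + 2 * (c * ∑ j, inner ℂ (x j) (y j)).re + ‖c‖ ^ 2 * ∑ j, ‖y j‖ ^ 2 := by
  rw [Finset.mul_sum, Finset.mul_sum, Complex.re_sum, Finset.mul_sum, ← Finset.sum_add_distrib, ← Finset.sum_add_distrib]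
  refine Finset.sum_congr rfl fun j _ => ?_
  have h := norm_add_sq (𝕜 := ℂ) (x j) (c • y j)
  rw [inner_smul_right, norm_smul, mul_pow] at h
  simpa using h

theorem IsMax.row_ort (hD : ST_DET) [FiniteDimensional ℂ V] {Φ : MultilinearMap ℂ (fun _ : Fin n => V) ℂ}
    (hΦ : SymF Φ) {X : Fin n → Fin n → V} (hX : IsMax Φ X) (i k : Fin n) :
    ∑ j, inner ℂ (X i j) (X k j) = if i = k then 1 else 0 := by
  have hn : 0 < n := lt_of_le_of_lt (Nat.zero_le _) i.2
  by_cases hik : i = k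
  · subst hik
    rw [if_pos rfl, ← Complex.ofReal_one, ← hX.row_one hD hΦ i, Complex.ofReal_sum]
    refine Finset.sum_congr rfl fun j _ => ?_
    rw [inner_self_eq_norm_sq_to_K]; push_cast; rfl
  · rw [if_neg hik]
    set G := ∑ j, inner ℂ (X i j) (X k j) with hG
    have h1 := hX.le_nsq hD hΦ (Matrix.transvection i k (-(starRingEnd ℂ G)))
      (by rw [Matrix.det_transvection_of_ne _ _ hik, norm_one]) hn
    rw [mix_transvection X i k hik, nsq_update, hX.1, sum_norm_add, hX.row_one hD hΦ k, ← hG, hX.row_one hD hΦ i,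
      norm_neg, RCLike.norm_conj, neg_mul, ← Complex.normSq_eq_conj_mul_self, Complex.neg_re, Complex.ofReal_re,
      Complex.normSq_eq_norm_sq] at h1
    have h2 : ‖G‖ ^ 2 ≤ 0 := by linarith
    have h3 : ‖G‖ = 0 := pow_eq_zero_iff (two_ne_zero) |>.1 (le_antisymm h2 (sq_nonneg _))
    exact norm_eq_zero.1 h3

/-- the `Φ`-determinant is linear in a row -/
theorem fdet_update_add_smul (Φ : MultilinearMap ℂ (fun _ : Fin n => V) ℂ) (X : Fin n → Fin n → V) (i : Fin n)
    (R S : Fin n → V) (b c : ℂ) : fdet Φ (Function.update X i (fun j => b • R j + c • S j)) =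
    b * fdet Φ (Function.update X i R) + c * fdet Φ (Function.update X i S) := by
  unfold fdet
  rw [Finset.mul_sum, Finset.mul_sum, ← Finset.sum_add_distrib]
  refine Finset.sum_congr rfl fun σ _ => ?_
  have h : ∀ T : Fin n → V, (fun k => Function.update X i T k (σ k)) =
      Function.update (fun k => X k (σ k)) i (T (σ i)) := by
    intro T
    funext k
    by_cases hk : k = i
    · subst hk; rw [Function.update_self, Function.update_self]
    · rw [Function.update_of_ne hk, Function.update_of_ne hk]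
  rw [h, h, h, Φ.map_update_add, Φ.map_update_smul, Φ.map_update_smul]
  simp only [smul_eq_mul]
  ring

theorem IsMax.row_bd [FiniteDimensional ℂ V] (hD : ST_DET) {Φ : MultilinearMap ℂ (fun _ : Fin n => V) ℂ}
    (hΦ : SymF Φ) {X : Fin n → Fin n → V} (hX : IsMax Φ X) (i : Fin n) (R : Fin n → V) :
    ‖fdet Φ (Function.update X i R)‖ ^ 2 ≤ ‖fdet Φ X‖ ^ 2 * ∑ j, ‖R j‖ ^ 2 := by
  set r := ∑ j, ‖R j‖ ^ 2 with hr
  have hr0 : 0 ≤ r := Finset.sum_nonneg fun _ _ => by positivity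
  rcases hr0.lt_or_eq with h0 | h0
  · have hs : 0 < Real.sqrt r := Real.sqrt_pos.2 h0
    have hs2 : Real.sqrt r ^ 2 = r := Real.sq_sqrt hr0
    have h1 : nsq (Function.update X i (fun j => ((Real.sqrt r : ℝ) : ℂ)⁻¹ • R j)) = n := by
      rw [nsq_update, hX.1, hX.row_one hD hΦ i]
      have : ∑ j, ‖((Real.sqrt r : ℝ) : ℂ)⁻¹ • R j‖ ^ 2 = 1 := by
        simp only [norm_smul, mul_pow, norm_inv, Complex.norm_real, Real.norm_eq_abs, abs_of_pos hs, inv_pow, hs2]
        rw [← Finset.mul_sum, ← hr, inv_mul_cancel₀ h0.ne']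
      rw [this]; ring
    have h2 := hX.2.2 _ h1
    have h3 := fdet_update_add_smul Φ X i R R (((Real.sqrt r : ℝ) : ℂ)⁻¹) 0
    simp only [zero_smul, add_zero, zero_mul] at h3
    rw [h3, norm_mul, norm_inv, Complex.norm_real, Real.norm_eq_abs, abs_of_pos hs, inv_mul_le_iff₀ hs] at h2
    calc ‖fdet Φ (Function.update X i R)‖ ^ 2 ≤ (Real.sqrt r * ‖fdet Φ X‖) ^ 2 := by gcongr
      _ = ‖fdet Φ X‖ ^ 2 * r := by rw [mul_pow, hs2]; ring
  · have h1 : ∀ j, R j = 0 := by
      intro j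
      have h2 : ‖R j‖ ^ 2 = 0 :=
        (Finset.sum_eq_zero_iff_of_nonneg (fun _ _ => by positivity)).1 h0.symm j (Finset.mem_univ _)
      exact norm_eq_zero.1 (pow_eq_zero_iff (two_ne_zero) |>.1 h2)
    rw [fdet_of_zero Φ _ i (fun j => by rw [Function.update_self]; exact h1 j), ← h0]
    simp

theorem IsMax.first (hD : ST_DET) [FiniteDimensional ℂ V] {Φ : MultilinearMap ℂ (fun _ : Fin n => V) ℂ}
    (hΦ : SymF Φ) {X : Fin n → Fin n → V} (hX : IsMax Φ X) (i : Fin n) (R : Fin n → V) :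
    fdet Φ (Function.update X i R) = fdet Φ X * ∑ j, inner ℂ (X i j) (R j) := by
  have hrow := hX.row_one hD hΦ i
  have hself : ∑ j, inner ℂ (X i j) (X i j) = 1 := by
    have := hX.row_ort hD hΦ i i
    rwa [if_pos rfl] at this
  have hD0 : 0 < ‖fdet Φ X‖ := norm_pos_iff.2 hX.2.1
  have hupd : fdet Φ (Function.update X i (X i)) = fdet Φ X := by rw [Function.update_eq_self]
  -- orthogonal rows
  have ort : ∀ S : Fin n → V, ∑ j, inner ℂ (X i j) (S j) = 0 → fdet Φ (Function.update X i S) = 0 := by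
    intro S hS
    by_contra hne
    set B := fdet Φ (Function.update X i S) with hB
    set D := fdet Φ X with hDD
    set s := ∑ j, ‖S j‖ ^ 2 with hs
    have hs0 : 0 ≤ s := Finset.sum_nonneg fun _ _ => by positivity
    have hB0 : 0 < ‖B‖ := norm_pos_iff.2 hne
    have key : ∀ c : ℂ, ‖D + c * B‖ ^ 2 ≤ ‖D‖ ^ 2 * (1 + ‖c‖ ^ 2 * s) := by
      intro c
      have h1 := hX.row_bd hD hΦ i (fun j => (1 : ℂ) • X i j + c • S j)
      rw [fdet_update_add_smul, hupd, one_mul, ← hB] at h1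
      have h2 : ∑ j, ‖(1 : ℂ) • X i j + c • S j‖ ^ 2 = 1 + ‖c‖ ^ 2 * s := by
        simp only [one_smul]
        rw [sum_norm_add, hS, hrow]; simp [hs]
      rw [h2] at h1
      exact h1
    -- choose c with c * B a positive multiple of D
    have h3 : ∀ ε : ℝ, 0 < ε → 2 ≤ ε * (‖D‖ ^ 2 * s) := by
      intro ε hε
      have h4 := key ((ε : ℂ) * (D * (starRingEnd ℂ B)))
      have h5 : D + (ε : ℂ) * (D * (starRingEnd ℂ B)) * B = D * ((1 + ε * ‖B‖ ^ 2 : ℝ) : ℂ) := by
        have h6 : (starRingEnd ℂ B) * B = ((‖B‖ ^ 2 : ℝ) : ℂ) := by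
          rw [← Complex.normSq_eq_conj_mul_self, Complex.normSq_eq_norm_sq]
        push_cast at h6 ⊢
        linear_combination (D * ε) * h6
      rw [h5, norm_mul, mul_pow, Complex.norm_real, Real.norm_eq_abs, sq_abs, norm_mul, Complex.norm_real,
        Real.norm_eq_abs, abs_of_pos hε, norm_mul, RCLike.norm_conj] at h4
      have h7 : (1 + ε * ‖B‖ ^ 2) ^ 2 ≤ 1 + (ε * (‖D‖ * ‖B‖)) ^ 2 * s :=
        le_of_mul_le_mul_left h4 (by positivity)
      have h8 : (ε * ‖B‖ ^ 2) * 2 ≤ (ε * ‖B‖ ^ 2) * (ε * (‖D‖ ^ 2 * s)) := by nlinarith [sq_nonneg (ε * ‖B‖ ^ 2)]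
      exact le_of_mul_le_mul_left h8 (by positivity)
    have h9 := h3 (1 / (‖D‖ ^ 2 * s + 1)) (by positivity)
    have h10 : 1 / (‖D‖ ^ 2 * s + 1) * (‖D‖ ^ 2 * s) ≤ 1 := by
      rw [one_div, inv_mul_le_iff₀ (by positivity)]; linarith
    linarith
  set α := ∑ j, inner ℂ (X i j) (R j) with hα
  have h1 : R = fun j => α • X i j + (1 : ℂ) • (R j - α • X i j) := by
    funext j; rw [one_smul]; abel
  have h2 : ∑ j, inner ℂ (X i j) (R j - α • X i j) = 0 := by
    simp only [inner_sub_right, inner_smul_right]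
    rw [Finset.sum_sub_distrib, ← Finset.mul_sum, hself, ← hα, mul_one, sub_self]
  calc fdet Φ (Function.update X i R)
      = fdet Φ (Function.update X i (fun j => α • X i j + (1 : ℂ) • (R j - α • X i j))) := by rw [← h1]
    _ = fdet Φ X * α := by
      rw [fdet_update_add_smul, hupd, ort _ h2]; ring

end

/-- ORT -/
theorem st_ORT (hD : ST_DET) : ST_ORT := by
  intro V _ _ _ n Φ X hΦ hX
  refine ⟨fun i k => hX.row_ort hD hΦ i k, fun j l => ?_, fun i R => hX.first hD hΦ i R⟩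
  exact (hX.transpose hD hΦ).row_ort hD hΦ j l

end HD
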