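import Mathlib

/-!
MP_2f9829_co, analytic core for all `d` (text: /team-store/lecc_helper87_allD.md): determinants with respect to a
symmetric multilinear form, and the forms `P_K`.
-/

set_option autoImplicit false

open Finset

namespace HD

variable {V : Type} [NormedAddCommGroup V] [InnerProductSpace ℂ V]

/-- symmetric `n`-linear forms -/
def SymF {n : ℕ} (Φ : MultilinearMap ℂ (fun _ : Fin n => V) ℂ) : Prop :=
  ∀ (σ : Equiv.Perm (Fin n)) (x : Fin n → V), Φ (fun i => x (σ i)) = Φ x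

/-- `|Φ (x, .., x)| ≤ |x| ^ n` -/
def UnitF {n : ℕ} (Φ : MultilinearMap ℂ (fun _ : Fin n => V) ℂ) : Prop :=
  ∀ x : V, ‖Φ (fun _ => x)‖ ≤ ‖x‖ ^ n

/-- the `Φ`-determinant of a matrix with entries in `V` -/
noncomputable def fdet {n : ℕ} (Φ : MultilinearMap ℂ (fun _ : Fin n => V) ℂ) (X : Fin n → Fin n → V) : ℂ :=
  ∑ σ : Equiv.Perm (Fin n), ((Equiv.Perm.sign σ : ℤ) : ℂ) * Φ (fun i => X i (σ i))

/-- the square of the norm of a matrix with entries in `V` -/
noncomputable def nsq {n : ℕ} (X : Fin n → Fin n → V) : ℝ := ∑ i, ∑ j, ‖X i j‖ ^ 2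

/-- row and column mixing -/
noncomputable def mix {n : ℕ} (A : Matrix (Fin n) (Fin n) ℂ) (X : Fin n → Fin n → V)
    (B : Matrix (Fin n) (Fin n) ℂ) : Fin n → Fin n → V :=
  fun i j => ∑ k, ∑ l, (A i k * B l j) • X k l

/-- `X` is a maximiser of `|Φ-det|` on the sphere `|X|² = n` -/
def IsMax {n : ℕ} (Φ : MultilinearMap ℂ (fun _ : Fin n => V) ℂ) (X : Fin n → Fin n → V) : Prop :=
  nsq X = n ∧ fdet Φ X ≠ 0 ∧ ∀ Y : Fin n → Fin n → V, nsq Y = n → ‖fdet Φ Y‖ ≤ ‖fdet Φ X‖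

/-- the matrix without its first row and column -/
def minor {n : ℕ} (X : Fin (n + 1) → Fin (n + 1) → V) : Fin n → Fin n → V := fun i j => X i.succ j.succ

/-- the linear map of a matrix with entries in `V` -/
noncomputable def lin {n : ℕ} (X : Fin n → Fin n → V) (N : Matrix (Fin n) (Fin n) ℂ) : V :=
  ∑ i, ∑ j, N i j • X i j

/-! ### The forms `P_K` -/

/-- index set of the tensors with `m` replicas -/
abbrev Ix (d m : ℕ) : Type := Fin m → Fin d

/-- the form `P`, `m` replicas (`m = 2 K`): the sum over `m` permutations -/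
noncomputable def PP (d m : ℕ) (x : Ix d m → ℂ) : ℂ :=
  ∑ π : Fin m → Equiv.Perm (Fin d), ((∏ j, ((Equiv.Perm.sign (π j) : ℤ) : ℂ)) * ∏ i, x (fun j => π j i))

/-- `q = d! / d ^ (d / 2)` -/
noncomputable def qq (d : ℕ) : ℝ := (d.factorial : ℝ) / Real.sqrt ((d : ℝ) ^ d)

/-- `x` is a product over a perfect matching `e` of the `m` replicas of the matrices `U k / √ d` -/
def IsProd {d m K : ℕ} (e : Fin K × Fin 2 ≃ Fin m) (U : Fin K → Matrix (Fin d) (Fin d) ℂ) (x : Ix d m → ℂ) : Prop :=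
  ∀ a : Ix d m, x a = (∏ k, U k (a (e (k, 0))) (a (e (k, 1)))) / ((Real.sqrt d : ℝ) : ℂ) ^ K

end HD
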